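import Pool.Agent.H821R4.LT.Stubs
import Pool.Agent.Helper625.Planch

set_option autoImplicit false
open MeasureTheory Real Complex FourierTransform Set

namespace H821R4.LT

theorem fa_continuous {f : ℝ → ℂ} (hf : Integrable f) : Continuous (𝓕 f) :=
  VectorFourier.fourierIntegral_continuous Real.continuous_fourierChar
    (by exact continuous_inner) hf

theorem fa : S_FA := by
  intro u hu hc
  have hcont : Continuous u := hu.continuous
  have hdc : Continuous (deriv u) := hu.continuous_deriv le_rfl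
  have hdcs : HasCompactSupport (deriv u) := hc.deriv
  have hi : Integrable u := hcont.integrable_of_hasCompactSupport hc
  have hi2 : MemLp u 2 := hcont.memLp_of_hasCompactSupport hc
  have hdi : Integrable (deriv u) := hdc.integrable_of_hasCompactSupport hdcs
  have hdi2 : MemLp (deriv u) 2 := hdc.memLp_of_hasCompactSupport hdcs
  obtain ⟨p1, p2⟩ := Pool.Agent.Helper625.Planch.plancherel u hi hi2
  obtain ⟨q1, q2⟩ := Pool.Agent.Helper625.Planch.plancherel (deriv u) hdi hdi2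
  have hF : 𝓕 (deriv u) = fun (x : ℝ) ↦ (2 * π * I * x) • (𝓕 u x) :=
    Real.fourier_deriv hi (hu.differentiable one_ne_zero) hdi
  have hn : ∀ ξ : ℝ, ‖𝓕 (deriv u) ξ‖ ^ 2 = P ξ ^ 2 * ‖𝓕 u ξ‖ ^ 2 := by
    intro ξ
    rw [hF]
    simp only [smul_eq_mul, norm_mul, Complex.norm_ofNat, Complex.norm_real, Complex.norm_I,
      Real.norm_eq_abs, P, abs_of_pos Real.pi_pos]
    ring
  have hFc : Continuous (𝓕 u) := fa_continuous hi
  have hI2 : Integrable (fun ξ => ‖𝓕 u ξ‖ ^ 2) := p1.integrable_norm_pow (by norm_num)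
  have hI2' : Integrable (fun ξ => P ξ ^ 2 * ‖𝓕 u ξ‖ ^ 2) := by
    have := q1.integrable_norm_pow (p := 2) (by norm_num)
    simpa only [hn] using this
  have hFi : Integrable (𝓕 u) := by
    have hb : Integrable (fun ξ : ℝ => (1 + ξ ^ 2)⁻¹ + (‖𝓕 u ξ‖ ^ 2 + P ξ ^ 2 * ‖𝓕 u ξ‖ ^ 2)) :=
      integrable_inv_one_add_sq.add (hI2.add hI2')
    refine hb.mono' hFc.aestronglyMeasurable (Filter.Eventually.of_forall fun ξ => ?_)
    have h1 : (0:ℝ) < 1 + ξ ^ 2 := by positivity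
    have hP : ξ ^ 2 ≤ P ξ ^ 2 := by
      unfold P
      rw [mul_pow, sq_abs]
      have : (1:ℝ) ≤ (2 * π) ^ 2 := by nlinarith [Real.pi_gt_three]
      nlinarith [sq_nonneg ξ]
    have h2 : ‖𝓕 u ξ‖ ≤ (1 + ξ ^ 2)⁻¹ + (1 + ξ ^ 2) * ‖𝓕 u ξ‖ ^ 2 := by
      have h3 : 0 < (1 + ξ ^ 2)⁻¹ := by positivity
      have h4 : (1 + ξ ^ 2)⁻¹ * (1 + ξ ^ 2) = 1 := inv_mul_cancel₀ h1.ne'
      have h5 := sq_nonneg ((1 + ξ ^ 2)⁻¹ - ‖𝓕 u ξ‖)
      have h6 : 0 ≤ (1 + ξ ^ 2) * ((1 + ξ ^ 2)⁻¹ - ‖𝓕 u ξ‖) ^ 2 := by positivity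
      have h7 : (1 + ξ ^ 2) * ((1 + ξ ^ 2)⁻¹ - ‖𝓕 u ξ‖) ^ 2
          = (1 + ξ ^ 2)⁻¹ - 2 * ‖𝓕 u ξ‖ + (1 + ξ ^ 2) * ‖𝓕 u ξ‖ ^ 2 := by
        field_simp
        ring
      have h8 := norm_nonneg (𝓕 u ξ)
      linarith
    have h9 : ξ ^ 2 * ‖𝓕 u ξ‖ ^ 2 ≤ P ξ ^ 2 * ‖𝓕 u ξ‖ ^ 2 :=
      mul_le_mul_of_nonneg_right hP (by positivity)
    linarith
  refine ⟨hFi, hFc, fun x => ?_, hI2, p2, hI2', ?_⟩
  · have h1 := congrFun (hcont.fourierInv_fourier_eq hi hFi) x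
    rw [Real.fourierInv_eq'] at h1
    rw [← h1]
    refine integral_congr_ae (Filter.Eventually.of_forall fun ξ => ?_)
    simp only [smul_eq_mul]
    congr 2
    simp
    ring
  · rw [← q2]
    exact integral_congr_ae (Filter.Eventually.of_forall fun ξ => (hn ξ).symm)

end H821R4.LT
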