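import Pool.Agent.H821R4.LT.Stubs

set_option autoImplicit false
open MeasureTheory Real Complex FourierTransform Set

namespace H821R4.LT

namespace FBx

theorem P_nonneg (ξ : ℝ) : 0 ≤ P ξ := by
  unfold P
  positivity

theorem w_le {t : ℝ} (ht : 0 < t) (ξ : ℝ) :
    P ξ ^ 2 * Real.exp (-(t * P ξ)) ≤ 2 / t ^ 2 := by
  have h0 := P_nonneg ξ
  have h1 : 0 ≤ t * P ξ := by positivity
  have h2 := Real.quadratic_le_exp_of_nonneg h1
  have h3 : (t * P ξ) ^ 2 ≤ 2 * Real.exp (t * P ξ) := by nlinarith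
  rw [Real.exp_neg, le_div_iff₀ (by positivity), ← div_eq_mul_inv, div_mul_eq_mul_div,
    div_le_iff₀ (Real.exp_pos _)]
  calc P ξ ^ 2 * t ^ 2 = (t * P ξ) ^ 2 := by ring
    _ ≤ 2 * Real.exp (t * P ξ) := h3

theorem integrand (u : ℝ → ℂ) (hu : Integrable (𝓕 u)) (t x : ℝ) (ht : 0 < t) :
    Integrable (fun ξ : ℝ => Complex.exp (2 * Real.pi * x * ξ * Complex.I) *
    (((P ξ ^ 2 * Real.exp (-(t * P ξ)) : ℝ) : ℂ) * 𝓕 u ξ)) := by
  refine Integrable.mono' (hu.norm.const_mul (2 / t ^ 2)) ?_ ?_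
  · refine AEStronglyMeasurable.mul ?_ (AEStronglyMeasurable.mul ?_ hu.aestronglyMeasurable)
    · exact Continuous.aestronglyMeasurable (by fun_prop)
    · refine Continuous.aestronglyMeasurable ?_
      unfold P
      fun_prop
  · refine Filter.Eventually.of_forall fun ξ => ?_
    have h1 : ‖Complex.exp (2 * Real.pi * x * ξ * Complex.I)‖ = 1 := by
      have : (2 * Real.pi * x * ξ * Complex.I : ℂ) = ((2 * Real.pi * x * ξ : ℝ) : ℂ) * Complex.I := by
        push_cast; ring
      rw [this, Complex.norm_exp_ofReal_mul_I]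
    rw [norm_mul, norm_mul, h1, one_mul, Complex.norm_real, Real.norm_eq_abs]
    have h2 : 0 ≤ P ξ ^ 2 * Real.exp (-(t * P ξ)) := by positivity
    rw [abs_of_nonneg h2]
    exact mul_le_mul_of_nonneg_right (w_le ht ξ) (norm_nonneg _)

theorem fsum {N : ℕ} (u : Fin N → ℝ → ℂ) (c : Fin N → ℂ) (h1 : ∀ n, Integrable (u n)) (ξ : ℝ) :
    𝓕 (fun y => ∑ n, c n * u n y) ξ = ∑ n, c n * 𝓕 (u n) ξ := by
  rw [Real.fourier_real_eq_integral_exp_smul]
  have e : (fun v : ℝ => Complex.exp (((-2 * Real.pi * v * ξ : ℝ) : ℂ) * Complex.I) •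
      ∑ n, c n * u n v) = fun v : ℝ => ∑ n, c n *
      (Complex.exp (((-2 * Real.pi * v * ξ : ℝ) : ℂ) * Complex.I) • u n v) := by
    funext v
    rw [smul_eq_mul, Finset.mul_sum]
    refine Finset.sum_congr rfl fun n _ => ?_
    rw [smul_eq_mul]
    ring
  rw [e, integral_finsetSum]
  · refine Finset.sum_congr rfl fun n _ => ?_
    rw [integral_const_mul, Real.fourier_real_eq_integral_exp_smul]
  · intro n _
    refine Integrable.const_mul ?_ _
    refine Integrable.mono (h1 n) ?_ ?_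
    · simp only [smul_eq_mul]
      refine AEStronglyMeasurable.mul ?_ (h1 n).aestronglyMeasurable
      exact Continuous.aestronglyMeasurable (by fun_prop)
    · refine Filter.Eventually.of_forall fun v => ?_
      rw [norm_smul, Complex.norm_exp_ofReal_mul_I, one_mul]

end FBx

theorem fb : S_FA → S_FB := by
  intro hFA N u c hu hc t x ht
  have hi : ∀ n, Integrable (u n) := fun n =>
    (hu n).continuous.integrable_of_hasCompactSupport (hc n)
  unfold D
  have e : (fun ξ : ℝ => Complex.exp (2 * Real.pi * x * ξ * Complex.I) *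
      (((P ξ ^ 2 * Real.exp (-(t * P ξ)) : ℝ) : ℂ) * 𝓕 (fun y => ∑ n, c n * u n y) ξ)) =
      fun ξ : ℝ => ∑ n, c n * (Complex.exp (2 * Real.pi * x * ξ * Complex.I) *
      (((P ξ ^ 2 * Real.exp (-(t * P ξ)) : ℝ) : ℂ) * 𝓕 (u n) ξ)) := by
    funext ξ
    rw [FBx.fsum u c hi ξ, Finset.mul_sum, Finset.mul_sum]
    refine Finset.sum_congr rfl fun n _ => ?_
    ring
  rw [e, integral_finsetSum]
  · refine Finset.sum_congr rfl fun n _ => ?_
    rw [integral_const_mul]
  · intro n _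
    exact (FBx.integrand (u n) (hFA (u n) (hu n) (hc n)).1 t x ht).const_mul _

end H821R4.LT
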