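import Pool.Agent.H821R4.LT.Stubs
import Pool.Agent.Helper625.Planch

/-! # Task FC: Plancherel and Tonelli for the square function `B` -/

set_option autoImplicit false
open MeasureTheory Real Complex FourierTransform Set

namespace H821R4.LT

lemma fc_P_nonneg (ξ : ℝ) : 0 ≤ P ξ := by unfold P; positivity

lemma fc_P_cont : Continuous P := by unfold P; fun_prop

/-- the weight `P^2 e^{-tP}` -/
noncomputable def fcW (t ξ : ℝ) : ℝ := P ξ ^ 2 * Real.exp (-(t * P ξ))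

lemma fcW_nonneg (t ξ : ℝ) : 0 ≤ fcW t ξ := by unfold fcW; positivity

lemma fcW_le (t : ℝ) (ht : 0 < t) (ξ : ℝ) : fcW t ξ ≤ 2 / t ^ 2 := by
  have hx : 0 ≤ t * P ξ := mul_nonneg ht.le (fc_P_nonneg ξ)
  have h := Real.quadratic_le_exp_of_nonneg hx
  unfold fcW
  rw [Real.exp_neg, ← div_eq_mul_inv, div_le_div_iff₀ (Real.exp_pos _) (by positivity)]
  nlinarith [mul_pow t (P ξ) 2]

lemma fcW_cont : Continuous (fun q : ℝ × ℝ => fcW q.1 q.2) := by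
  unfold fcW
  have := fc_P_cont
  fun_prop

/-- `D u t x` is a Fourier transform at `-x`. -/
lemma fc_D_eq (u : ℝ → ℂ) (t x : ℝ) :
    D u t x = 𝓕 (fun ξ : ℝ => ((fcW t ξ : ℝ) : ℂ) * 𝓕 u ξ) (-x) := by
  rw [Real.fourier_real_eq_integral_exp_smul]
  unfold D fcW
  refine integral_congr_ae (Filter.Eventually.of_forall fun ξ => ?_)
  simp only [smul_eq_mul]
  congr 2
  push_cast
  ring

lemma fc_D_meas (u : ℝ → ℂ) (hc : Continuous (𝓕 u)) :
    Measurable (fun q : ℝ × ℝ => D u q.1 q.2) := by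
  have hF : Continuous (fun p : (ℝ × ℝ) × ℝ =>
      Complex.exp (2 * Real.pi * p.1.2 * p.2 * Complex.I) *
        (((P p.2 ^ 2 * Real.exp (-(p.1.1 * P p.2)) : ℝ) : ℂ) * 𝓕 u p.2)) := by
    have h1 := fc_P_cont
    have h2 : Continuous (fun p : (ℝ × ℝ) × ℝ => ((P p.2 ^ 2 * Real.exp (-(p.1.1 * P p.2)) : ℝ) : ℂ)) := by
      apply Complex.continuous_ofReal.comp
      fun_prop
    have h3 : Continuous (fun p : (ℝ × ℝ) × ℝ => 𝓕 u p.2) := hc.comp continuous_snd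
    have h4 : Continuous (fun p : (ℝ × ℝ) × ℝ => Complex.exp (2 * Real.pi * p.1.2 * p.2 * Complex.I)) := by
      fun_prop
    exact h4.mul (h2.mul h3)
  exact (hF.stronglyMeasurable.integral_prod_right').measurable

/-- Plancherel at a fixed `t`. -/
lemma fc_planch (u : ℝ → ℂ) (hi : Integrable (𝓕 u)) (hc : Continuous (𝓕 u))
    (h2 : Integrable (fun ξ => ‖𝓕 u ξ‖ ^ 2)) (t : ℝ) (ht : 0 < t) :
    ∫⁻ x : ℝ, ENNReal.ofReal (‖D u t x‖ ^ 2) =
      ∫⁻ ξ : ℝ, ENNReal.ofReal (fcW t ξ ^ 2 * ‖𝓕 u ξ‖ ^ 2) := by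
  set h : ℝ → ℂ := fun ξ : ℝ => ((fcW t ξ : ℝ) : ℂ) * 𝓕 u ξ with hh
  have hWc : Continuous (fun ξ : ℝ => ((fcW t ξ : ℝ) : ℂ)) :=
    Complex.continuous_ofReal.comp (fcW_cont.comp (by fun_prop : Continuous fun ξ : ℝ => (t, ξ)))
  have hcont : Continuous h := hWc.mul hc
  have hnorm : ∀ ξ, ‖h ξ‖ = fcW t ξ * ‖𝓕 u ξ‖ := by
    intro ξ
    rw [hh]
    simp only [norm_mul, Complex.norm_real, Real.norm_eq_abs, abs_of_nonneg (fcW_nonneg t ξ)]
  have hI : Integrable h := by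
    refine (hi.norm.const_mul (2 / t ^ 2)).mono' hcont.aestronglyMeasurable
      (Filter.Eventually.of_forall fun ξ => ?_)
    rw [hnorm]
    exact mul_le_mul_of_nonneg_right (fcW_le t ht ξ) (norm_nonneg _)
  have hI2 : Integrable (fun ξ => ‖h ξ‖ ^ 2) := by
    refine (h2.const_mul ((2 / t ^ 2) ^ 2)).mono' (hcont.norm.pow 2).aestronglyMeasurable
      (Filter.Eventually.of_forall fun ξ => ?_)
    rw [Real.norm_eq_abs, abs_of_nonneg (by positivity), hnorm, mul_pow]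
    exact mul_le_mul_of_nonneg_right
      (pow_le_pow_left₀ (fcW_nonneg t ξ) (fcW_le t ht ξ) 2) (by positivity)
  have hL2 : MemLp h 2 := (memLp_two_iff_integrable_sq_norm hcont.aestronglyMeasurable).2 hI2
  obtain ⟨p1, p2⟩ := Pool.Agent.Helper625.Planch.plancherel h hI hL2
  have hF2 : Integrable (fun x => ‖𝓕 h x‖ ^ 2) :=
    (memLp_two_iff_integrable_sq_norm p1.aestronglyMeasurable).1 p1
  have hF2' : Integrable (fun x => ‖𝓕 h (-x)‖ ^ 2) := hF2.comp_neg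
  have e1 : ∫⁻ x : ℝ, ENNReal.ofReal (‖D u t x‖ ^ 2) =
      ∫⁻ x : ℝ, ENNReal.ofReal (‖𝓕 h (-x)‖ ^ 2) := by
    refine lintegral_congr fun x => ?_
    rw [fc_D_eq]
  have e2 : ∫⁻ ξ : ℝ, ENNReal.ofReal (fcW t ξ ^ 2 * ‖𝓕 u ξ‖ ^ 2) =
      ∫⁻ x : ℝ, ENNReal.ofReal (‖h x‖ ^ 2) := by
    refine lintegral_congr fun ξ => ?_
    rw [hnorm, mul_pow]
  rw [e1, e2, ← ofReal_integral_eq_lintegral_ofReal hF2' (Filter.Eventually.of_forall fun x => by positivity),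
    ← ofReal_integral_eq_lintegral_ofReal hI2 (Filter.Eventually.of_forall fun x => by positivity)]
  congr 1
  rw [← p2]
  exact integral_neg_eq_self (fun x => ‖𝓕 h x‖ ^ 2) volume

/-- the `t`-integral -/
lemma fc_inner (p c : ℝ) (hp : 0 ≤ p) (hc : 0 ≤ c) :
    ∫⁻ t in Ioi (0 : ℝ), ENNReal.ofReal (4 * t) *
      ENNReal.ofReal ((p ^ 2 * Real.exp (-(t * p))) ^ 2 * c) ≤ ENNReal.ofReal (p ^ 2 * c) := by
  rcases hp.eq_or_lt with h0 | h0
  · simp [← h0]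
  have hi := Real.integral_rpow_mul_exp_neg_mul_Ioi (a := 2) (r := 2 * p) (by norm_num) (by positivity)
  have hG : Real.Gamma 2 = 1 := by
    rw [show (2 : ℝ) = 1 + 1 by norm_num, Real.Gamma_add_one (by norm_num), Real.Gamma_one, mul_one]
  rw [hG] at hi
  have hi2 : ∫ t in Ioi (0 : ℝ), t ^ ((2 : ℝ) - 1) * Real.exp (-(2 * p * t)) = 1 / (4 * p ^ 2) := by
    rw [hi]
    rw [show ((1 : ℝ) / (2 * p)) ^ (2 : ℝ) = (1 / (2 * p)) ^ (2 : ℕ) by
      rw [← Real.rpow_natCast]; norm_num]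
    field_simp
    ring
  have hint : Integrable (fun t : ℝ => t ^ ((2 : ℝ) - 1) * Real.exp (-(2 * p * t)))
      (volume.restrict (Ioi (0 : ℝ))) := by
    by_contra hne
    rw [integral_undef hne] at hi2
    have : (0 : ℝ) < 1 / (4 * p ^ 2) := by positivity
    linarith
  have e1 : ∫⁻ t in Ioi (0 : ℝ), ENNReal.ofReal (4 * t) *
      ENNReal.ofReal ((p ^ 2 * Real.exp (-(t * p))) ^ 2 * c) =
      ∫⁻ t in Ioi (0 : ℝ), ENNReal.ofReal ((4 * p ^ 4 * c) *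
        (t ^ ((2 : ℝ) - 1) * Real.exp (-(2 * p * t)))) := by
    refine setLIntegral_congr_fun measurableSet_Ioi fun t ht => ?_
    have ht' : 0 < t := ht
    rw [← ENNReal.ofReal_mul (by positivity)]
    congr 1
    rw [show (2 : ℝ) - 1 = 1 by norm_num, Real.rpow_one,
      show -(2 * p * t) = -(t * p) + -(t * p) by ring, Real.exp_add]
    ring
  rw [e1, ← ofReal_integral_eq_lintegral_ofReal (hint.const_mul _)
    ((ae_restrict_iff' measurableSet_Ioi).2 (Filter.Eventually.of_forall fun t ht => by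
      have ht' : 0 < t := ht
      positivity)), integral_const_mul, hi2]
  apply le_of_eq
  congr 1
  field_simp

lemma fc_meas_aux (G : ℝ → ℝ → ℂ) (hm : Measurable (fun q : ℝ × ℝ => G q.1 q.2)) :
    Measurable (fun q : ℝ × ℝ => ENNReal.ofReal (4 * q.2 * ‖G q.2 q.1‖ ^ 2)) := by
  have h := hm.comp (measurable_swap (α := ℝ) (β := ℝ))
  have h' : Measurable (fun q : ℝ × ℝ => G q.2 q.1) := h
  exact ENNReal.measurable_ofReal.comp
    ((measurable_const.mul measurable_snd).mul (h'.norm.pow_const 2))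

theorem fc : S_FA → S_FC := by
  intro hFA u hu hcs
  obtain ⟨hi, hc, -, h2, -, h3, h4⟩ := hFA u hu hcs
  have hm := fc_D_meas u hc
  refine ⟨hm, ?_⟩
  unfold B
  -- swap x and t
  have hmeas1 : Measurable (fun q : ℝ × ℝ => ENNReal.ofReal (4 * q.2 * ‖D u q.2 q.1‖ ^ 2)) :=
    fc_meas_aux (D u) hm
  have s1 : ∫⁻ x : ℝ, ∫⁻ t in Ioi (0 : ℝ), ENNReal.ofReal (4 * t * ‖D u t x‖ ^ 2) =
      ∫⁻ t in Ioi (0 : ℝ), ∫⁻ x : ℝ, ENNReal.ofReal (4 * t * ‖D u t x‖ ^ 2) :=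
    lintegral_lintegral_swap hmeas1.aemeasurable
  rw [s1]
  have s2 : ∫⁻ t in Ioi (0 : ℝ), ∫⁻ x : ℝ, ENNReal.ofReal (4 * t * ‖D u t x‖ ^ 2) =
      ∫⁻ t in Ioi (0 : ℝ), ∫⁻ ξ : ℝ, ENNReal.ofReal (4 * t) *
        ENNReal.ofReal (fcW t ξ ^ 2 * ‖𝓕 u ξ‖ ^ 2) := by
    refine setLIntegral_congr_fun measurableSet_Ioi fun t ht => ?_
    have ht' : 0 < t := ht
    have a1 : ∀ x, ENNReal.ofReal (4 * t * ‖D u t x‖ ^ 2) =
        ENNReal.ofReal (4 * t) * ENNReal.ofReal (‖D u t x‖ ^ 2) := fun x =>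
      ENNReal.ofReal_mul (by positivity)
    simp only [a1]
    rw [lintegral_const_mul' _ _ ENNReal.ofReal_ne_top, lintegral_const_mul' _ _ ENNReal.ofReal_ne_top,
      fc_planch u hi hc h2 t ht']
  rw [s2]
  have hmeas2 : Measurable (fun q : ℝ × ℝ => ENNReal.ofReal (4 * q.1) *
      ENNReal.ofReal (fcW q.1 q.2 ^ 2 * ‖𝓕 u q.2‖ ^ 2)) := by
    have m1 : Measurable (fun q : ℝ × ℝ => fcW q.1 q.2) := fcW_cont.measurable
    have m2 : Measurable (fun q : ℝ × ℝ => 𝓕 u q.2) := hc.measurable.comp measurable_snd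
    fun_prop
  have s3 : ∫⁻ t in Ioi (0 : ℝ), ∫⁻ ξ : ℝ, ENNReal.ofReal (4 * t) *
        ENNReal.ofReal (fcW t ξ ^ 2 * ‖𝓕 u ξ‖ ^ 2) =
      ∫⁻ ξ : ℝ, ∫⁻ t in Ioi (0 : ℝ), ENNReal.ofReal (4 * t) *
        ENNReal.ofReal (fcW t ξ ^ 2 * ‖𝓕 u ξ‖ ^ 2) :=
    lintegral_lintegral_swap hmeas2.aemeasurable
  rw [s3, ← h4, ofReal_integral_eq_lintegral_ofReal h3
    (Filter.Eventually.of_forall fun ξ => by positivity)]
  refine lintegral_mono fun ξ => ?_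
  have := fc_inner (P ξ) (‖𝓕 u ξ‖ ^ 2) (fc_P_nonneg ξ) (by positivity)
  unfold fcW
  exact this

end H821R4.LT
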