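import Pool.Agent.H821R4.LT.Stubs

/-! Task LA (helper439): Laplace transform of `s ψ(s)`. -/

set_option autoImplicit false
open MeasureTheory Real Complex FourierTransform Set

namespace H821R4.LT

theorem la_one (c : ℝ) (hc : 0 < c) :
    IntegrableOn (fun s : ℝ => s * Real.exp (-(c * s))) (Ioi 0) ∧
    ∫ s in Ioi (0 : ℝ), s * Real.exp (-(c * s)) = 1 / c ^ 2 := by
  have h := Real.integral_rpow_mul_exp_neg_mul_Ioi (a := 2) (by norm_num) hc
  have e : ∫ s in Ioi (0 : ℝ), s * Real.exp (-(c * s)) = 1 / c ^ 2 := by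
    have h1 : ∫ s in Ioi (0 : ℝ), s * Real.exp (-(c * s)) =
        ∫ s in Ioi (0 : ℝ), s ^ ((2 : ℝ) - 1) * Real.exp (-(c * s)) := by
      apply setIntegral_congr_fun measurableSet_Ioi
      intro s _
      show s * Real.exp (-(c * s)) = s ^ ((2 : ℝ) - 1) * Real.exp (-(c * s))
      have : (2 : ℝ) - 1 = 1 := by norm_num
      rw [this, Real.rpow_one]
    rw [h1, h, Real.Gamma_two, mul_one]
    have : (2 : ℝ) = ((2 : ℕ) : ℝ) := by norm_num
    rw [this, Real.rpow_natCast, div_pow, one_pow]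
  refine ⟨?_, e⟩
  by_contra hcon
  have h2 : ∫ s in Ioi (0 : ℝ), s * Real.exp (-(c * s)) = 0 := integral_undef hcon
  rw [h2] at e
  have : 0 < 1 / c ^ 2 := by positivity
  linarith

theorem la_two (c : ℝ) (hc : 0 < c) :
    IntegrableOn (fun s : ℝ => s ^ 2 * Real.exp (-(c * s))) (Ioi 0) ∧
    ∫ s in Ioi (0 : ℝ), s ^ 2 * Real.exp (-(c * s)) = 2 / c ^ 3 := by
  have h := Real.integral_rpow_mul_exp_neg_mul_Ioi (a := 3) (by norm_num) hc
  have hG : Real.Gamma 3 = 2 := by
    have h3 : (3 : ℝ) = 2 + 1 := by norm_num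
    rw [h3, Real.Gamma_add_one (by norm_num), Real.Gamma_two, mul_one]
  have e : ∫ s in Ioi (0 : ℝ), s ^ 2 * Real.exp (-(c * s)) = 2 / c ^ 3 := by
    have h1 : ∫ s in Ioi (0 : ℝ), s ^ 2 * Real.exp (-(c * s)) =
        ∫ s in Ioi (0 : ℝ), s ^ ((3 : ℝ) - 1) * Real.exp (-(c * s)) := by
      apply setIntegral_congr_fun measurableSet_Ioi
      intro s _
      show s ^ 2 * Real.exp (-(c * s)) = s ^ ((3 : ℝ) - 1) * Real.exp (-(c * s))
      have : (3 : ℝ) - 1 = ((2 : ℕ) : ℝ) := by norm_num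
      rw [this, Real.rpow_natCast]
    rw [h1, h, hG]
    have : (3 : ℝ) = ((3 : ℕ) : ℝ) := by norm_num
    rw [this, Real.rpow_natCast, div_pow, one_pow]
    ring
  refine ⟨?_, e⟩
  by_contra hcon
  have h2 : ∫ s in Ioi (0 : ℝ), s ^ 2 * Real.exp (-(c * s)) = 0 := integral_undef hcon
  rw [h2] at e
  have : 0 < 2 / c ^ 3 := by positivity
  linarith

theorem la : S_LA := by
  intro y hy
  obtain ⟨i1, e1⟩ := la_one (y + 1 / 4) (by linarith)
  obtain ⟨i2, e2⟩ := la_one (y + 4 / 3) (by linarith)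
  obtain ⟨i3, e3⟩ := la_two (y + 4 / 3) (by linarith)
  have hfun : (fun s : ℝ => s * psi s * Real.exp (-(s * y))) =
      fun s : ℝ => 2 / 7 * (s * Real.exp (-((y + 1 / 4) * s))) +
        4 / 7 * (s * Real.exp (-((y + 4 / 3) * s))) +
        17 / 7 * (s ^ 2 * Real.exp (-((y + 4 / 3) * s))) := by
    funext s
    unfold psi
    have a1 : Real.exp (-((y + 1 / 4) * s)) = Real.exp (-(s / 4)) * Real.exp (-(s * y)) := by
      rw [← Real.exp_add]; congr 1; ring
    have a2 : Real.exp (-((y + 4 / 3) * s)) = Real.exp (-(4 * s / 3)) * Real.exp (-(s * y)) := by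
      rw [← Real.exp_add]; congr 1; ring
    rw [a1, a2]
    ring
  have j1 := i1.const_mul (2 / 7)
  have j2 := i2.const_mul (4 / 7)
  have j3 := i3.const_mul (17 / 7)
  have j12 : Integrable (fun s : ℝ => 2 / 7 * (s * Real.exp (-((y + 1 / 4) * s))) +
        4 / 7 * (s * Real.exp (-((y + 4 / 3) * s)))) (volume.restrict (Ioi 0)) := j1.add j2
  rw [hfun]
  refine ⟨j12.add j3, ?_⟩
  rw [integral_add j12 j3, integral_add j1 j2, integral_const_mul, integral_const_mul,
    integral_const_mul, e1, e2, e3]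
  unfold gg
  have h1 : y + 1 / 4 ≠ 0 := by positivity
  have h2 : y + 4 / 3 ≠ 0 := by positivity
  field_simp
  ring

end H821R4.LT
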