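import Pool.Agent.H821R4.LT.Stubs

set_option autoImplicit false

namespace H821R4.LT

theorem lf : S_LF := by
  unfold S_LF
  have hpi : 3.1415 < Real.pi := Real.pi_gt_d4
  have hpos : 0 < Real.pi := Real.pi_pos
  have e : (4259 / 10000 / (Real.pi * (6 / 25) * (17 / 5)) : ℝ) =
      (4259 / 10000 / ((6 / 25) * (17 / 5))) / Real.pi := by
    field_simp
  have h1 : (4259 / 10000 / ((6 / 25) * (17 / 5)) : ℝ) / Real.pi ≤
      (4259 / 10000 / ((6 / 25) * (17 / 5))) / 3.1415 := by
    gcongr
  rw [e]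
  refine le_trans (mul_le_mul_of_nonneg_right (add_le_add_left h1 _) (by norm_num)) ?_
  norm_num

end H821R4.LT
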