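import Mathlib

/-! # An improved lower bound for the Lieb-Thirring kinetic constant in one dimension (statements)

Theorem (helper821): for all orthonormal families `u_n` of compactly supported C^1 functions on the
line, `Σ ∫ |u_n'|^2 ≥ (8/5) ∫ (Σ |u_n|^2)^3`. -/

set_option autoImplicit false
open MeasureTheory Real Complex FourierTransform Set

namespace H821R4.LT

/-- modulus of the angular frequency -/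
noncomputable def P (ξ : ℝ) : ℝ := 2 * Real.pi * |ξ|

/-- the weight `ψ` -/
noncomputable def psi (s : ℝ) : ℝ :=
  2 / 7 * Real.exp (-(s / 4)) + (4 / 7 + 17 / 7 * s) * Real.exp (-(4 * s / 3))

/-- `g(y) = y^2 ∫_0^∞ s ψ(s) e^{-sy} ds` -/
noncomputable def gg (y : ℝ) : ℝ :=
  y ^ 2 * (2 / 7 / (y + 1 / 4) ^ 2 + 4 / 7 / (y + 4 / 3) ^ 2 + 34 / 7 / (y + 4 / 3) ^ 3)

/-- `D u t x = ∫ P(ξ)^2 e^{-t P(ξ)} û(ξ) e^{2π i x ξ} dξ` -/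
noncomputable def D (u : ℝ → ℂ) (t x : ℝ) : ℂ :=
  ∫ ξ : ℝ, Complex.exp (2 * Real.pi * x * ξ * Complex.I) *
    (((P ξ ^ 2 * Real.exp (-(t * P ξ)) : ℝ) : ℂ) * 𝓕 u ξ)

/-- `B u x = ∫_0^∞ 4 t |D u t x|^2 dt` -/
noncomputable def B (u : ℝ → ℂ) (x : ℝ) : ENNReal :=
  ∫⁻ t in Ioi (0 : ℝ), ENNReal.ofReal (4 * t * ‖D u t x‖ ^ 2)

/-! ## One-variable integrals -/

/-- Task LA -/
def S_LA : Prop := ∀ y : ℝ, 0 < y →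
  IntegrableOn (fun s : ℝ => s * psi s * Real.exp (-(s * y))) (Ioi 0) ∧
  ∫ s in Ioi (0 : ℝ), s * psi s * Real.exp (-(s * y)) = gg y / y ^ 2

/-- Task LN -/
def S_LN : Prop :=
  IntegrableOn (fun s : ℝ => s * psi s ^ 2) (Ioi 0) ∧
  ∫ s in Ioi (0 : ℝ), s * psi s ^ 2 = 1510488593 / 688314368

/-- Task LJ -/
def S_LJ : Prop :=
  IntegrableOn (fun y : ℝ => (1 - gg y) ^ 2 / (1 + y ^ 2)) (Ioi 0) ∧
  ∫ y in Ioi (0 : ℝ), (1 - gg y) ^ 2 / (1 + y ^ 2) ≤ 4259 / 10000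

/-- Task LF -/
def S_LF : Prop :=
  (4259 / 10000 / (Real.pi * (6 / 25) * (17 / 5)) +
    1510488593 / 688314368 / (4 * (17 / 5) ^ 2 * (19 / 25))) * (8 / 5 + 6 / 25 * (17 / 5) ^ 2) ≤ 1

/-! ## Fourier facts for `u ∈ C^1_c` -/

/-- Task FA -/
def S_FA : Prop := ∀ u : ℝ → ℂ, ContDiff ℝ 1 u → HasCompactSupport u →
  Integrable (𝓕 u) ∧ Continuous (𝓕 u) ∧
  (∀ x : ℝ, u x = ∫ ξ : ℝ, Complex.exp (2 * Real.pi * x * ξ * Complex.I) * 𝓕 u ξ) ∧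
  Integrable (fun ξ => ‖𝓕 u ξ‖ ^ 2) ∧
  (∫ ξ : ℝ, ‖𝓕 u ξ‖ ^ 2 = ∫ x : ℝ, ‖u x‖ ^ 2) ∧
  Integrable (fun ξ => P ξ ^ 2 * ‖𝓕 u ξ‖ ^ 2) ∧
  (∫ ξ : ℝ, P ξ ^ 2 * ‖𝓕 u ξ‖ ^ 2 = ∫ x : ℝ, ‖deriv u x‖ ^ 2)

/-- Task FB (linearity of `D`) -/
def S_FB : Prop := ∀ (N : ℕ) (u : Fin N → ℝ → ℂ) (c : Fin N → ℂ),
  (∀ n, ContDiff ℝ 1 (u n)) → (∀ n, HasCompactSupport (u n)) → ∀ t x : ℝ, 0 < t →
  D (fun y => ∑ n, c n * u n y) t x = ∑ n, c n * D (u n) t x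

/-- Task FC (Plancherel and Tonelli) -/
def S_FC : Prop := ∀ u : ℝ → ℂ, ContDiff ℝ 1 u → HasCompactSupport u →
  Measurable (fun q : ℝ × ℝ => D u q.1 q.2) ∧
  ∫⁻ x : ℝ, B u x ≤ ENNReal.ofReal (∫ x : ℝ, ‖deriv u x‖ ^ 2)

/-- Task LW (first half of the one-function inequality): Cauchy-Schwarz against the weight. -/
def S_LW : Prop := ∀ u : ℝ → ℂ, ContDiff ℝ 1 u → HasCompactSupport u → ∀ x κ : ℝ, 0 < κ →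
  Integrable (fun ξ : ℝ => Complex.exp (2 * Real.pi * x * ξ * Complex.I) *
    (((1 - gg (P ξ / κ) : ℝ) : ℂ) * 𝓕 u ξ)) ∧
  ‖∫ ξ : ℝ, Complex.exp (2 * Real.pi * x * ξ * Complex.I) *
      (((1 - gg (P ξ / κ) : ℝ) : ℂ) * 𝓕 u ξ)‖ ^ 2 ≤
    4259 / 10000 / (Real.pi * κ) * ((∫ y : ℝ, ‖deriv u y‖ ^ 2) + κ ^ 2 * ∫ y : ℝ, ‖u y‖ ^ 2)

/-- Task LG (second half): the part `g` of the frequency partition is an average of `D`. -/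
def S_LG : Prop := ∀ u : ℝ → ℂ, ContDiff ℝ 1 u → HasCompactSupport u → ∀ x κ : ℝ, 0 < κ →
  B u x ≠ ⊤ →
  ‖∫ ξ : ℝ, Complex.exp (2 * Real.pi * x * ξ * Complex.I) *
      (((gg (P ξ / κ) : ℝ) : ℂ) * 𝓕 u ξ)‖ ^ 2 ≤
    1510488593 / 688314368 / (4 * κ ^ 2) * (B u x).toReal

/-- Task ONE (one-function inequality). -/
def S_ONE : Prop := ∀ u : ℝ → ℂ, ContDiff ℝ 1 u → HasCompactSupport u → ∀ x ρ : ℝ, 0 < ρ →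
  ‖u x‖ = ρ → ∫ y : ℝ, ‖u y‖ ^ 2 = ρ → B u x ≠ ⊤ →
  8 / 5 * ρ ^ 3 ≤ 6 / 25 * (∫ y : ℝ, ‖deriv u y‖ ^ 2) + 19 / 25 * ((B u x).toReal / ρ)

/-- The main theorem. -/
def S_MAIN : Prop := ∀ (N : ℕ) (u : Fin N → ℝ → ℂ),
  (∀ n, ContDiff ℝ 1 (u n)) → (∀ n, HasCompactSupport (u n)) →
  (∀ n m, ∫ x : ℝ, (starRingEnd ℂ) (u n x) * u m x = if n = m then 1 else 0) →
  8 / 5 * ∫ x : ℝ, (∑ n, ‖u n x‖ ^ 2) ^ 3 ≤ ∑ n, ∫ x : ℝ, ‖deriv (u n) x‖ ^ 2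

end H821R4.LT
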