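import Mathlib
import Pool.Agent.H821R4.LT.Stubs

set_option autoImplicit false
open MeasureTheory Real Complex FourierTransform Set

namespace H821R4.LT

theorem lg_cs {α : Type*} [MeasurableSpace α] {μ : Measure α} {f g : α → ℝ}
    (hf : Integrable (fun t => f t ^ 2) μ) (hg : Integrable (fun t => g t ^ 2) μ)
    (hfg : Integrable (fun t => f t * g t) μ) :
    (∫ t, f t * g t ∂μ) ^ 2 ≤ (∫ t, f t ^ 2 ∂μ) * ∫ t, g t ^ 2 ∂μ := by
  have h : ∀ s : ℝ, 0 ≤ (∫ t, f t ^ 2 ∂μ) * (s * s) + (2 * ∫ t, f t * g t ∂μ) * s +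
      ∫ t, g t ^ 2 ∂μ := by
    intro s
    have h1 : (∫ t, f t ^ 2 ∂μ) * (s * s) + (2 * ∫ t, f t * g t ∂μ) * s + ∫ t, g t ^ 2 ∂μ
        = ∫ t, (f t * s + g t) ^ 2 ∂μ := by
      have h2 : (fun t => (f t * s + g t) ^ 2) =
          fun t => ((s * s) * f t ^ 2 + (2 * s) * (f t * g t)) + g t ^ 2 := by
        funext t; ring
      have hA := hf.const_mul (s * s)
      have hB := hfg.const_mul (2 * s)
      have e1 := integral_add (hA.add hB) hg
      have e2 := integral_add hA hB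
      simp only [Pi.add_apply] at e1 e2
      rw [h2, e1, e2, integral_const_mul, integral_const_mul]
      ring
    rw [h1]
    exact integral_nonneg fun t => sq_nonneg _
  have h3 := discrim_le_zero h
  unfold discrim at h3
  nlinarith

theorem lg_psi_nonneg {s : ℝ} (hs : 0 ≤ s) : 0 ≤ psi s := by
  unfold psi; positivity

theorem lg_psi_cont : Continuous psi := by
  unfold psi; fun_prop

theorem lg_P_nonneg (ξ : ℝ) : 0 ≤ P ξ := by
  unfold P; positivity

theorem lg_P_cont : Continuous P := by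
  unfold P; fun_prop

theorem lg_gg_nonneg {y : ℝ} (hy : 0 ≤ y) : 0 ≤ gg y := by
  unfold gg; positivity

theorem lg_gg_le {y : ℝ} (hy : 0 ≤ y) : gg y ≤ 5 := by
  unfold gg
  have h1 : y ^ 2 / (y + 1 / 4) ^ 2 ≤ 1 := by
    rw [div_le_one (by positivity)]
    nlinarith
  have h2 : y ^ 2 / (y + 4 / 3) ^ 2 ≤ 1 := by
    rw [div_le_one (by positivity)]
    nlinarith
  have h3 : y ^ 2 / (y + 4 / 3) ^ 3 ≤ 3 / 4 := by
    rw [div_le_iff₀ (by positivity)]
    nlinarith [sq_nonneg y, mul_nonneg hy (sq_nonneg y)]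
  have h4 : y ^ 2 * (2 / 7 / (y + 1 / 4) ^ 2 + 4 / 7 / (y + 4 / 3) ^ 2 + 34 / 7 / (y + 4 / 3) ^ 3) =
      2 / 7 * (y ^ 2 / (y + 1 / 4) ^ 2) + 4 / 7 * (y ^ 2 / (y + 4 / 3) ^ 2) +
        34 / 7 * (y ^ 2 / (y + 4 / 3) ^ 3) := by ring
  rw [h4]
  linarith

theorem lg_gg_meas : Measurable gg := by
  unfold gg; fun_prop

theorem lg_key (hLA : S_LA) {κ p : ℝ} (hκ : 0 < κ) (hp : 0 ≤ p) :
    IntegrableOn (fun t : ℝ => p ^ 2 * Real.exp (-(t * p)) * (t * psi (κ * t))) (Ioi 0) ∧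
    ∫ t in Ioi (0 : ℝ), p ^ 2 * Real.exp (-(t * p)) * (t * psi (κ * t)) = gg (p / κ) := by
  rcases eq_or_lt_of_le hp with h | h
  · subst h
    simp [gg]
  · have hy : 0 < p / κ := by positivity
    obtain ⟨h1, h2⟩ := hLA (p / κ) hy
    have h3 : (fun t : ℝ => p ^ 2 * Real.exp (-(t * p)) * (t * psi (κ * t))) =
        fun t : ℝ => (p ^ 2 / κ) * ((fun s : ℝ => s * psi s * Real.exp (-(s * (p / κ)))) (κ * t)) := by
      funext t
      have : κ * t * (p / κ) = t * p := by field_simp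
      simp only [this]
      field_simp
    constructor
    · rw [h3]
      have h4 := (integrableOn_Ioi_comp_mul_left_iff
        (fun s : ℝ => s * psi s * Real.exp (-(s * (p / κ)))) 0 hκ).mpr (by simpa using h1)
      exact h4.const_mul (p ^ 2 / κ)
    · rw [h3, integral_const_mul,
        integral_comp_mul_left_Ioi (fun s : ℝ => s * psi s * Real.exp (-(s * (p / κ)))) 0 hκ]
      rw [mul_zero, h2, smul_eq_mul]
      field_simp

theorem lg_N (hLN : S_LN) {κ : ℝ} (hκ : 0 < κ) :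
    IntegrableOn (fun t : ℝ => t * psi (κ * t) ^ 2) (Ioi 0) ∧
    ∫ t in Ioi (0 : ℝ), t * psi (κ * t) ^ 2 = 1510488593 / 688314368 / κ ^ 2 := by
  obtain ⟨h1, h2⟩ := hLN
  have h3 : (fun t : ℝ => t * psi (κ * t) ^ 2) =
      fun t : ℝ => κ⁻¹ * ((fun s : ℝ => s * psi s ^ 2) (κ * t)) := by
    funext t
    field_simp
  constructor
  · rw [h3]
    have h4 := (integrableOn_Ioi_comp_mul_left_iff
      (fun s : ℝ => s * psi s ^ 2) 0 hκ).mpr (by simpa using h1)
    exact h4.const_mul κ⁻¹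
  · rw [h3, integral_const_mul, integral_comp_mul_left_Ioi (fun s : ℝ => s * psi s ^ 2) 0 hκ]
    rw [mul_zero, h2, smul_eq_mul]
    field_simp

theorem lg : S_LA → S_LN → S_FA → S_LG := by
  intro hLA hLN hFA u hu hsu x κ hκ hB
  obtain ⟨hUi, hUc, -⟩ := hFA u hu hsu
  have hPc := lg_P_cont
  have hψc := lg_psi_cont
  -- the kernel
  set G : ℝ → ℝ → ℂ := fun t ξ => Complex.exp (2 * Real.pi * x * ξ * Complex.I) *
    (((P ξ ^ 2 * Real.exp (-(t * P ξ)) : ℝ) : ℂ) * 𝓕 u ξ) with hG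
  set F : ℝ → ℝ → ℂ := fun ξ t => G t ξ * ((t * psi (κ * t) : ℝ) : ℂ) with hF
  have hGc : Continuous (fun q : ℝ × ℝ => G q.1 q.2) := by
    simp only [hG]
    refine Continuous.mul (by fun_prop) (Continuous.mul ?_ (hUc.comp continuous_snd))
    refine Complex.continuous_ofReal.comp ?_
    exact ((hPc.comp continuous_snd).pow 2).mul
      (Real.continuous_exp.comp ((continuous_fst.mul (hPc.comp continuous_snd)).neg))
  have hFc : Continuous (fun q : ℝ × ℝ => F q.1 q.2) := by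
    simp only [hF]
    refine Continuous.mul (hGc.comp (continuous_snd.prodMk continuous_fst)) ?_
    refine Complex.continuous_ofReal.comp ?_
    exact continuous_snd.mul (hψc.comp (continuous_const.mul continuous_snd))
  have hexp : ∀ ξ : ℝ, ‖Complex.exp (2 * Real.pi * x * ξ * Complex.I)‖ = 1 := by
    intro ξ
    have : (2 * Real.pi * x * ξ * Complex.I : ℂ) = ((2 * Real.pi * x * ξ : ℝ) : ℂ) * Complex.I := by
      push_cast; ring
    rw [this]
    exact Complex.norm_exp_ofReal_mul_I _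
  have hFform : ∀ ξ t : ℝ, F ξ t = (Complex.exp (2 * Real.pi * x * ξ * Complex.I) * 𝓕 u ξ) *
      ((P ξ ^ 2 * Real.exp (-(t * P ξ)) * (t * psi (κ * t)) : ℝ) : ℂ) := by
    intro ξ t
    simp only [hF, hG]
    push_cast
    ring
  have hFint : ∀ ξ : ℝ, IntegrableOn (fun t => F ξ t) (Ioi 0) := by
    intro ξ
    simp only [hFform]
    exact ((lg_key hLA hκ (lg_P_nonneg ξ)).1.ofReal).const_mul _
  have hFval : ∀ ξ : ℝ, ∫ t in Ioi (0 : ℝ), F ξ t =
      Complex.exp (2 * Real.pi * x * ξ * Complex.I) *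
      (((gg (P ξ / κ) : ℝ) : ℂ) * 𝓕 u ξ) := by
    intro ξ
    simp only [hFform]
    rw [integral_const_mul, integral_complex_ofReal, (lg_key hLA hκ (lg_P_nonneg ξ)).2]
    ring
  have hFnorm : ∀ ξ : ℝ, ∫ t in Ioi (0 : ℝ), ‖F ξ t‖ = gg (P ξ / κ) * ‖𝓕 u ξ‖ := by
    intro ξ
    have h1 : ∫ t in Ioi (0 : ℝ), ‖F ξ t‖ = ∫ t in Ioi (0 : ℝ), ‖𝓕 u ξ‖ *
        (P ξ ^ 2 * Real.exp (-(t * P ξ)) * (t * psi (κ * t))) := by
      apply setIntegral_congr_fun measurableSet_Ioi
      intro t ht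
      simp only [mem_Ioi] at ht
      simp only [hFform, norm_mul, hexp, one_mul]
      rw [Complex.norm_real, Real.norm_of_nonneg]
      have := lg_psi_nonneg (mul_pos hκ ht).le
      positivity
    rw [h1, integral_const_mul, (lg_key hLA hκ (lg_P_nonneg ξ)).2]
    ring
  have hFi : Integrable (fun q : ℝ × ℝ => F q.1 q.2) (volume.prod (volume.restrict (Ioi (0 : ℝ)))) := by
    rw [integrable_prod_iff hFc.aestronglyMeasurable]
    refine ⟨Filter.Eventually.of_forall fun ξ => hFint ξ, ?_⟩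
    simp only [hFnorm]
    refine (hUi.norm).bdd_mul (c := 5) ?_ ?_
    · exact (lg_gg_meas.comp (hPc.measurable.div_const κ)).aestronglyMeasurable
    · refine Filter.Eventually.of_forall fun ξ => ?_
      have h0 : 0 ≤ P ξ / κ := div_nonneg (lg_P_nonneg ξ) hκ.le
      rw [Real.norm_of_nonneg (lg_gg_nonneg h0)]
      exact lg_gg_le h0
  -- swap
  have hDdef : ∀ t : ℝ, ∫ ξ : ℝ, F ξ t = ((t * psi (κ * t) : ℝ) : ℂ) * D u t x := by
    intro t
    simp only [hF]
    rw [integral_mul_const, mul_comm]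
    rfl
  have hswap : ∫ ξ : ℝ, Complex.exp (2 * Real.pi * x * ξ * Complex.I) *
      (((gg (P ξ / κ) : ℝ) : ℂ) * 𝓕 u ξ) =
      ∫ t in Ioi (0 : ℝ), ((t * psi (κ * t) : ℝ) : ℂ) * D u t x := by
    rw [← integral_congr_ae (Filter.Eventually.of_forall hFval), integral_integral_swap hFi]
    simp only [hDdef]
  have hDm : StronglyMeasurable (fun t : ℝ => D u t x) := by
    have h1 : StronglyMeasurable (Function.uncurry G) := hGc.stronglyMeasurable
    have h2 := h1.integral_prod_right (ν := (volume : Measure ℝ))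
    exact h2
  have hint1 : IntegrableOn (fun t : ℝ => ((t * psi (κ * t) : ℝ) : ℂ) * D u t x) (Ioi 0) := by
    have := hFi.integral_prod_right
    simp only [hDdef] at this
    exact this
  have hae : ∀ᵐ t ∂(volume.restrict (Ioi (0 : ℝ))), t ∈ Ioi (0 : ℝ) :=
    ae_restrict_mem measurableSet_Ioi
  have hbm : AEStronglyMeasurable (fun t : ℝ => 4 * t * ‖D u t x‖ ^ 2)
      (volume.restrict (Ioi (0 : ℝ))) := by
    have : StronglyMeasurable (fun t : ℝ => 4 * t * ‖D u t x‖ ^ 2) :=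
      ((by fun_prop : Continuous fun t : ℝ => 4 * t).stronglyMeasurable).mul (hDm.norm.pow 2)
    exact this.aestronglyMeasurable
  have hb0 : 0 ≤ᵐ[volume.restrict (Ioi (0 : ℝ))] (fun t : ℝ => 4 * t * ‖D u t x‖ ^ 2) := by
    filter_upwards [hae] with t ht
    simp only [mem_Ioi] at ht
    simp only [Pi.zero_apply]
    positivity
  have hbi : Integrable (fun t : ℝ => 4 * t * ‖D u t x‖ ^ 2) (volume.restrict (Ioi (0 : ℝ))) := by
    refine ⟨hbm, ?_⟩
    rw [hasFiniteIntegral_iff_ofReal hb0]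
    exact lt_top_iff_ne_top.mpr hB
  have hbv : ∫ t in Ioi (0 : ℝ), 4 * t * ‖D u t x‖ ^ 2 = (B u x).toReal := by
    rw [integral_eq_lintegral_of_nonneg_ae hb0 hbm]
    rfl
  -- Cauchy-Schwarz
  have hf2 : Integrable (fun t : ℝ => (Real.sqrt t * psi (κ * t)) ^ 2)
      (volume.restrict (Ioi (0 : ℝ))) := by
    refine (lg_N hLN hκ).1.congr ?_
    filter_upwards [hae] with t ht
    rw [mul_pow, Real.sq_sqrt (le_of_lt ht)]
  have hf2v : ∫ t in Ioi (0 : ℝ), (Real.sqrt t * psi (κ * t)) ^ 2 =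
      1510488593 / 688314368 / κ ^ 2 := by
    rw [← (lg_N hLN hκ).2]
    apply setIntegral_congr_fun measurableSet_Ioi
    intro t ht
    simp only
    rw [mul_pow, Real.sq_sqrt (le_of_lt ht)]
  have hg2 : Integrable (fun t : ℝ => (Real.sqrt t * ‖D u t x‖) ^ 2)
      (volume.restrict (Ioi (0 : ℝ))) := by
    refine (hbi.const_mul (1 / 4)).congr ?_
    filter_upwards [hae] with t ht
    rw [mul_pow, Real.sq_sqrt (le_of_lt ht)]
    ring
  have hg2v : ∫ t in Ioi (0 : ℝ), (Real.sqrt t * ‖D u t x‖) ^ 2 = 1 / 4 * (B u x).toReal := by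
    rw [← hbv, ← integral_const_mul]
    apply setIntegral_congr_fun measurableSet_Ioi
    intro t ht
    simp only
    rw [mul_pow, Real.sq_sqrt (le_of_lt ht)]
    ring
  have hnorm : ∀ t ∈ Ioi (0 : ℝ), ‖((t * psi (κ * t) : ℝ) : ℂ) * D u t x‖ =
      (Real.sqrt t * psi (κ * t)) * (Real.sqrt t * ‖D u t x‖) := by
    intro t ht
    have ht' : 0 < t := ht
    have h1 : 0 ≤ t * psi (κ * t) := mul_nonneg ht'.le (lg_psi_nonneg (mul_pos hκ ht').le)
    rw [norm_mul, Complex.norm_real, Real.norm_of_nonneg h1]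
    have h2 : t = Real.sqrt t * Real.sqrt t := (Real.mul_self_sqrt ht'.le).symm
    calc t * psi (κ * t) * ‖D u t x‖ = (Real.sqrt t * Real.sqrt t) * psi (κ * t) * ‖D u t x‖ := by
          rw [← h2]
      _ = _ := by ring
  have hfg : Integrable (fun t : ℝ => (Real.sqrt t * psi (κ * t)) * (Real.sqrt t * ‖D u t x‖))
      (volume.restrict (Ioi (0 : ℝ))) := by
    refine hint1.norm.congr ?_
    filter_upwards [hae] with t ht
    exact hnorm t ht
  have hcs := lg_cs hf2 hg2 hfg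
  rw [hf2v, hg2v] at hcs
  rw [hswap]
  have hle : ‖∫ t in Ioi (0 : ℝ), ((t * psi (κ * t) : ℝ) : ℂ) * D u t x‖ ≤
      ∫ t in Ioi (0 : ℝ), (Real.sqrt t * psi (κ * t)) * (Real.sqrt t * ‖D u t x‖) := by
    refine (norm_integral_le_integral_norm _).trans (le_of_eq ?_)
    exact setIntegral_congr_fun measurableSet_Ioi hnorm
  calc ‖∫ t in Ioi (0 : ℝ), ((t * psi (κ * t) : ℝ) : ℂ) * D u t x‖ ^ 2
      ≤ (∫ t in Ioi (0 : ℝ), (Real.sqrt t * psi (κ * t)) * (Real.sqrt t * ‖D u t x‖)) ^ 2 :=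
        pow_le_pow_left₀ (norm_nonneg _) hle 2
    _ ≤ 1510488593 / 688314368 / κ ^ 2 * (1 / 4 * (B u x).toReal) := hcs
    _ = 1510488593 / 688314368 / (4 * κ ^ 2) * (B u x).toReal := by
        field_simp

end H821R4.LT
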