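import Pool.Agent.H821R4.LT.Stubs

set_option autoImplicit false
open MeasureTheory Real Set Filter Topology

namespace H821R4.LT

namespace LJx

/-- power terms of the antiderivative -/
theorem pd (c a y : ℝ) (j : ℕ) (h : y + a ≠ 0) :
    HasDerivAt (fun y : ℝ => -(c / ((j + 1 : ℕ) * (y + a) ^ (j + 1)))) (c / (y + a) ^ (j + 2)) y := by
  have h1 : HasDerivAt (fun y : ℝ => (y + a) ^ (j + 1)) ((j + 1 : ℕ) * (y + a) ^ j * 1) y := by
    exact ((hasDerivAt_id' y).add_const a).pow (j + 1)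
  have hj : ((j + 1 : ℕ) : ℝ) ≠ 0 := by positivity
  have h2 : HasDerivAt (fun y : ℝ => -c * (((j + 1 : ℕ) : ℝ) * (y + a) ^ (j + 1))⁻¹)
      (-c * (-(((j + 1 : ℕ) : ℝ) * ((j + 1 : ℕ) * (y + a) ^ j * 1)) /
        (((j + 1 : ℕ) : ℝ) * (y + a) ^ (j + 1)) ^ 2)) y :=
    (((h1.const_mul ((j + 1 : ℕ) : ℝ)).inv (by positivity)).const_mul (-c))
  have e : (fun y : ℝ => -(c / ((j + 1 : ℕ) * (y + a) ^ (j + 1)))) =
      fun y : ℝ => -c * (((j + 1 : ℕ) : ℝ) * (y + a) ^ (j + 1))⁻¹ := by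
    funext z
    rw [div_eq_mul_inv, neg_mul]
  rw [e]
  refine h2.congr_deriv ?_
  field_simp
  ring

/-- logarithmic terms -/
theorem ld (c a y : ℝ) (h : y + a ≠ 0) :
    HasDerivAt (fun y : ℝ => c * (Real.log (y + a) - 1 / 2 * Real.log (y ^ 2 + 1)))
      (c / (y + a) + (-c * y) / (1 + y ^ 2)) y := by
  have h1 : HasDerivAt (fun y : ℝ => Real.log (y + a)) (1 / (y + a)) y :=
    ((hasDerivAt_id' y).add_const a).log h
  have hq : y ^ 2 + 1 ≠ 0 := by positivity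
  have h2 : HasDerivAt (fun y : ℝ => Real.log (y ^ 2 + 1)) (2 * y / (y ^ 2 + 1)) y := by
    have := ((hasDerivAt_pow 2 y).add_const 1).log hq
    simpa using this
  have h3 := (h1.sub (h2.const_mul (1 / 2))).const_mul c
  refine h3.congr_deriv ?_
  have hq' : 1 + y ^ 2 ≠ 0 := by positivity
  field_simp
  ring

theorem comb (c1 c2 c3 c4 d1 d2 d3 d4 d5 d6 R a b q : ℝ) (ha : a ≠ 0) (hb : b ≠ 0) (hq : q ≠ 0) :
    c1 / a + c2 / a ^ 2 + c3 / a ^ 3 + c4 / a ^ 4 + d1 / b + d2 / b ^ 2 + d3 / b ^ 3 + d4 / b ^ 4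
      + d5 / b ^ 5 + d6 / b ^ 6 + R / q =
    (c1 * a ^ 3 * b ^ 6 * q + c2 * a ^ 2 * b ^ 6 * q + c3 * a * b ^ 6 * q + c4 * b ^ 6 * q
      + d1 * a ^ 4 * b ^ 5 * q + d2 * a ^ 4 * b ^ 4 * q + d3 * a ^ 4 * b ^ 3 * q
      + d4 * a ^ 4 * b ^ 2 * q + d5 * a ^ 4 * b * q + d6 * a ^ 4 * q + R * a ^ 4 * b ^ 6) /
      (a ^ 4 * b ^ 6 * q) := by
  field_simp

/-- the numerator of `1 - g` -/
noncomputable def nu (y : ℝ) : ℝ :=
  1 / 7 * y ^ 5 - 107 / 42 * y ^ 4 + 339 / 112 * y ^ 3 + 6439 / 1512 * y ^ 2 + 41 / 27 * y + 4 / 27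

theorem one_sub_gg (y : ℝ) (ha : y + 1 / 4 ≠ 0) (hb : y + 4 / 3 ≠ 0) :
    1 - gg y = nu y / ((y + 1 / 4) ^ 2 * (y + 4 / 3) ^ 3) := by
  unfold gg nu
  rw [eq_div_iff (by positivity)]
  have e1 : (1 - y ^ 2 * (2 / 7 / (y + 1 / 4) ^ 2 + 4 / 7 / (y + 4 / 3) ^ 2 +
      34 / 7 / (y + 4 / 3) ^ 3)) * ((y + 1 / 4) ^ 2 * (y + 4 / 3) ^ 3) =
      (y + 1 / 4) ^ 2 * (y + 4 / 3) ^ 3 - y ^ 2 * (2 / 7 * (y + 4 / 3) ^ 3 +
        4 / 7 * ((y + 1 / 4) ^ 2 * (y + 4 / 3)) + 34 / 7 * (y + 1 / 4) ^ 2) := by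
    generalize y + 1 / 4 = a at *
    generalize y + 4 / 3 = b at *
    field_simp
  rw [e1]
  ring

theorem pf (y : ℝ) :
    (3320075648/116886720769) * (y + 1 / 4) ^ 3 * (y + 4 / 3) ^ 6 * (1 + y ^ 2)
      + (936696/528899189) * (y + 1 / 4) ^ 2 * (y + 4 / 3) ^ 6 * (1 + y ^ 2)
      + (-66/14161) * (y + 1 / 4) * (y + 4 / 3) ^ 6 * (1 + y ^ 2)
      + (1/3332) * (y + 4 / 3) ^ 6 * (1 + y ^ 2)
      + (56117811535308/48810302734375) * (y + 1 / 4) ^ 4 * (y + 4 / 3) ^ 5 * (1 + y ^ 2)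
      + (3217993427988/1051298828125) * (y + 1 / 4) ^ 4 * (y + 4 / 3) ^ 4 * (1 + y ^ 2)
      + (39134918272/9704296875) * (y + 1 / 4) ^ 4 * (y + 4 / 3) ^ 3 * (1 + y ^ 2)
      + (109207936/6890625) * (y + 1 / 4) ^ 4 * (y + 4 / 3) ^ 2 * (1 + y ^ 2)
      + (-13351936/275625) * (y + 1 / 4) ^ 4 * (y + 4 / 3) * (1 + y ^ 2)
      + (295936/11025) * (y + 1 / 4) ^ 4 * (1 + y ^ 2)
      + ((-1177118290831316/999152587890625) * y + (-1501008150951387/999152587890625))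
        * (y + 1 / 4) ^ 4 * (y + 4 / 3) ^ 6 = nu y ^ 2 := by
  unfold nu
  ring

theorem val (y : ℝ) (ha : y + 1 / 4 ≠ 0) (hb : y + 4 / 3 ≠ 0) :
    (3320075648/116886720769) / (y + 1 / 4) + (936696/528899189) / (y + 1 / 4) ^ 2
      + (-66/14161) / (y + 1 / 4) ^ 3 + (1/3332) / (y + 1 / 4) ^ 4
      + (56117811535308/48810302734375) / (y + 4 / 3)
      + (3217993427988/1051298828125) / (y + 4 / 3) ^ 2
      + (39134918272/9704296875) / (y + 4 / 3) ^ 3 + (109207936/6890625) / (y + 4 / 3) ^ 4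
      + (-13351936/275625) / (y + 4 / 3) ^ 5 + (295936/11025) / (y + 4 / 3) ^ 6
      + ((-1177118290831316/999152587890625) * y + (-1501008150951387/999152587890625)) /
        (1 + y ^ 2) = (1 - gg y) ^ 2 / (1 + y ^ 2) := by
  have hq : (1 : ℝ) + y ^ 2 ≠ 0 := by positivity
  rw [comb _ _ _ _ _ _ _ _ _ _ _ _ _ _ ha hb hq, pf, one_sub_gg y ha hb, div_pow, div_div]
  congr 1
  ring

/-- the antiderivative -/
noncomputable def AA (y : ℝ) : ℝ :=
  (3320075648/116886720769) * (Real.log (y + 1 / 4) - 1 / 2 * Real.log (y ^ 2 + 1))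
  + (56117811535308/48810302734375) * (Real.log (y + 4 / 3) - 1 / 2 * Real.log (y ^ 2 + 1))
  + (-1501008150951387/999152587890625) * Real.arctan y
  + -((936696/528899189) / ((0 + 1 : ℕ) * (y + 1 / 4) ^ (0 + 1)))
  + -((-66/14161) / ((1 + 1 : ℕ) * (y + 1 / 4) ^ (1 + 1)))
  + -((1/3332) / ((2 + 1 : ℕ) * (y + 1 / 4) ^ (2 + 1)))
  + -((3217993427988/1051298828125) / ((0 + 1 : ℕ) * (y + 4 / 3) ^ (0 + 1)))
  + -((39134918272/9704296875) / ((1 + 1 : ℕ) * (y + 4 / 3) ^ (1 + 1)))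
  + -((109207936/6890625) / ((2 + 1 : ℕ) * (y + 4 / 3) ^ (2 + 1)))
  + -((-13351936/275625) / ((3 + 1 : ℕ) * (y + 4 / 3) ^ (3 + 1)))
  + -((295936/11025) / ((4 + 1 : ℕ) * (y + 4 / 3) ^ (4 + 1)))

theorem hasDeriv (y : ℝ) (ha : y + 1 / 4 ≠ 0) (hb : y + 4 / 3 ≠ 0) :
    HasDerivAt AA ((1 - gg y) ^ 2 / (1 + y ^ 2)) y := by
  have h := ((((((((((ld (3320075648/116886720769) (1 / 4) y ha).add
    (ld (56117811535308/48810302734375) (4 / 3) y hb)).add
    ((Real.hasDerivAt_arctan y).const_mul (-1501008150951387/999152587890625))).add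
    (pd (936696/528899189) (1 / 4) y 0 ha)).add
    (pd (-66/14161) (1 / 4) y 1 ha)).add
    (pd (1/3332) (1 / 4) y 2 ha)).add
    (pd (3217993427988/1051298828125) (4 / 3) y 0 hb)).add
    (pd (39134918272/9704296875) (4 / 3) y 1 hb)).add
    (pd (109207936/6890625) (4 / 3) y 2 hb)).add
    (pd (-13351936/275625) (4 / 3) y 3 hb)).add
    (pd (295936/11025) (4 / 3) y 4 hb)
  refine (h.congr_deriv ?_)
  rw [← val y ha hb]
  ring

theorem tend_pow (c a : ℝ) (j : ℕ) :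
    Tendsto (fun y : ℝ => -(c / ((j + 1 : ℕ) * (y + a) ^ (j + 1)))) atTop (𝓝 0) := by
  have h1 : Tendsto (fun y : ℝ => (y + a) ^ (j + 1)) atTop atTop :=
    (tendsto_pow_atTop (Nat.succ_ne_zero j)).comp (tendsto_atTop_add_const_right _ a tendsto_id)
  have h2 : Tendsto (fun y : ℝ => ((j + 1 : ℕ) : ℝ) * (y + a) ^ (j + 1)) atTop atTop :=
    h1.const_mul_atTop (by positivity)
  have h3 := (h2.const_div_atTop c).neg
  simpa using h3

theorem tend_log (c a : ℝ) :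
    Tendsto (fun y : ℝ => c * (Real.log (y + a) - 1 / 2 * Real.log (y ^ 2 + 1))) atTop (𝓝 0) := by
  have h1 := tendsto_log_comp_add_sub_log a
  have h2 := (tendsto_log_comp_add_sub_log 1).comp
    (tendsto_pow_atTop (α := ℝ) (two_ne_zero))
  have h3 : Tendsto (fun y : ℝ => c * ((Real.log (y + a) - Real.log y) -
      1 / 2 * (Real.log (y ^ 2 + 1) - Real.log (y ^ 2)))) atTop (𝓝 (c * (0 - 1 / 2 * 0))) :=
    (h1.sub (h2.const_mul (1 / 2))).const_mul c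
  simp only [mul_zero, sub_zero] at h3
  refine h3.congr fun y => ?_
  rw [Real.log_pow]
  push_cast
  ring

theorem tend : Tendsto AA atTop (𝓝 ((-1501008150951387/999152587890625) * (π / 2))) := by
  have h := ((((((((((tend_log (3320075648/116886720769) (1 / 4)).add
    (tend_log (56117811535308/48810302734375) (4 / 3))).add
    (((Real.tendsto_arctan_atTop).mono_right nhdsWithin_le_nhds).const_mul
      (-1501008150951387/999152587890625))).add
    (tend_pow (936696/528899189) (1 / 4) 0)).add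
    (tend_pow (-66/14161) (1 / 4) 1)).add
    (tend_pow (1/3332) (1 / 4) 2)).add
    (tend_pow (3217993427988/1051298828125) (4 / 3) 0)).add
    (tend_pow (39134918272/9704296875) (4 / 3) 1)).add
    (tend_pow (109207936/6890625) (4 / 3) 2)).add
    (tend_pow (-13351936/275625) (4 / 3) 3)).add
    (tend_pow (295936/11025) (4 / 3) 4)
  simp only [zero_add, add_zero] at h
  exact h

theorem log43 : (0.287676 : ℝ) ≤ Real.log (4 / 3) := by
  have h := Real.abs_log_sub_add_sum_range_le (x := 1 / 4) (by norm_num [abs_of_pos]) 8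
  have h2 : Real.log (1 - 1 / 4) = -Real.log (4 / 3) := by
    rw [← Real.log_inv]; norm_num
  rw [h2] at h
  have h3 := (abs_le.1 h).1
  have h4 := (abs_le.1 h).2
  simp only [Finset.sum_range_succ, Finset.sum_range_zero] at h3 h4
  rw [abs_of_pos (by norm_num : (0 : ℝ) < 1 / 4)] at h3 h4
  norm_num at h3 h4 ⊢
  linarith

end LJx

theorem lj : S_LJ := by
  have hd : ∀ x ∈ Ici (0 : ℝ), HasDerivAt LJx.AA ((1 - gg x) ^ 2 / (1 + x ^ 2)) x := fun x hx =>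
    LJx.hasDeriv x (by have : (0 : ℝ) ≤ x := hx; positivity) (by have : (0 : ℝ) ≤ x := hx; positivity)
  have hp : ∀ x ∈ Ioi (0 : ℝ), 0 ≤ (1 - gg x) ^ 2 / (1 + x ^ 2) := fun x _ => by positivity
  refine ⟨integrableOn_Ioi_deriv_of_nonneg' hd hp LJx.tend, ?_⟩
  rw [integral_Ioi_of_hasDerivAt_of_nonneg' hd hp LJx.tend]
  have h1 : Real.log (1 / 4) = -(2 * Real.log 2) := by
    rw [show (1 / 4 : ℝ) = (2 ^ 2)⁻¹ by norm_num, Real.log_inv, Real.log_pow]; norm_num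
  have h5 : Real.log ((0 : ℝ) ^ 2 + 1) = 0 := by norm_num
  have e : LJx.AA 0 = (3320075648/116886720769) * (-(2 * Real.log 2)) +
      (56117811535308/48810302734375) * Real.log (4 / 3) -
      47677779621885499/15495093427734375 := by
    unfold LJx.AA
    rw [zero_add, zero_add, h1, h5, Real.arctan_zero]
    norm_num
    ring
  have h2 := Real.log_two_lt_d9
  have h3 := LJx.log43
  have h4 := Real.pi_gt_d6
  rw [e]
  linarith

end H821R4.LT
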