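import Pool.Agent.H821R4.LT.Stubs

/-! # Task LN -/

set_option autoImplicit false
open MeasureTheory Real Complex FourierTransform Set

namespace H821R4.LT

theorem ln_integrable (k : ℕ) (c : ℝ) (hc : 0 < c) :
    IntegrableOn (fun s : ℝ => s ^ k * Real.exp (-(c * s))) (Ioi 0) := by
  have h := integrableOn_rpow_mul_exp_neg_mul_rpow (p := 1) (s := (k : ℝ)) (b := c)
    (by have : (0 : ℝ) ≤ k := Nat.cast_nonneg k
        linarith) one_pos hc
  refine h.congr_fun ?_ measurableSet_Ioi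
  intro x _
  simp only [Real.rpow_natCast, Real.rpow_one, neg_mul]

theorem ln_integral (k : ℕ) (c : ℝ) (hc : 0 < c) :
    ∫ s in Ioi (0 : ℝ), s ^ k * Real.exp (-(c * s)) = k.factorial / c ^ (k + 1) := by
  have h := Real.integral_rpow_mul_exp_neg_mul_Ioi (a := (k : ℝ) + 1) (r := c)
    (by have : (0 : ℝ) ≤ k := Nat.cast_nonneg k
        linarith) hc
  have h2 : ∫ s in Ioi (0 : ℝ), s ^ k * Real.exp (-(c * s)) =
      ∫ t in Ioi (0 : ℝ), t ^ ((k : ℝ) + 1 - 1) * Real.exp (-(c * t)) := by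
    refine setIntegral_congr_fun measurableSet_Ioi ?_
    intro x _
    simp only [add_sub_cancel_right, Real.rpow_natCast]
  rw [h2, h, Real.Gamma_nat_eq_factorial]
  have h3 : (1 / c) ^ ((k : ℝ) + 1) = (1 / c) ^ (k + 1) := by
    rw [← Real.rpow_natCast]; push_cast; rfl
  rw [h3, one_div, inv_pow]
  field_simp

theorem ln_expand (s : ℝ) : s * psi s ^ 2 =
    4 / 49 * (s ^ 1 * Real.exp (-(1 / 2 * s))) +
    (16 / 49 * (s ^ 1 * Real.exp (-(19 / 12 * s))) +
    (68 / 49 * (s ^ 2 * Real.exp (-(19 / 12 * s))) +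
    (16 / 49 * (s ^ 1 * Real.exp (-(8 / 3 * s))) +
    (136 / 49 * (s ^ 2 * Real.exp (-(8 / 3 * s))) +
    289 / 49 * (s ^ 3 * Real.exp (-(8 / 3 * s))))))) := by
  have e1 : Real.exp (-(1 / 2 * s)) = Real.exp (-(s / 4)) * Real.exp (-(s / 4)) := by
    rw [← Real.exp_add]; congr 1; ring
  have e2 : Real.exp (-(19 / 12 * s)) = Real.exp (-(s / 4)) * Real.exp (-(4 * s / 3)) := by
    rw [← Real.exp_add]; congr 1; ring
  have e3 : Real.exp (-(8 / 3 * s)) = Real.exp (-(4 * s / 3)) * Real.exp (-(4 * s / 3)) := by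
    rw [← Real.exp_add]; congr 1; ring
  rw [e1, e2, e3, psi]
  ring

/-- integrable with given integral -/
def lnHas (f : ℝ → ℝ) (v : ℝ) : Prop :=
  IntegrableOn f (Ioi 0) ∧ ∫ s in Ioi (0 : ℝ), f s = v

theorem lnHas_add {f g : ℝ → ℝ} {v w : ℝ} (hf : lnHas f v) (hg : lnHas g w) :
    lnHas (fun s => f s + g s) (v + w) :=
  ⟨hf.1.add hg.1, by rw [integral_add hf.1 hg.1, hf.2, hg.2]⟩

theorem lnHas_term (a : ℝ) (k : ℕ) (c : ℝ) (hc : 0 < c) :
    lnHas (fun s => a * (s ^ k * Real.exp (-(c * s)))) (a * (k.factorial / c ^ (k + 1))) :=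
  ⟨(ln_integrable k c hc).const_mul a, by rw [integral_const_mul, ln_integral k c hc]⟩

theorem ln : S_LN := by
  have h := lnHas_add (lnHas_term (4 / 49) 1 (1 / 2) (by norm_num))
    (lnHas_add (lnHas_term (16 / 49) 1 (19 / 12) (by norm_num))
    (lnHas_add (lnHas_term (68 / 49) 2 (19 / 12) (by norm_num))
    (lnHas_add (lnHas_term (16 / 49) 1 (8 / 3) (by norm_num))
    (lnHas_add (lnHas_term (136 / 49) 2 (8 / 3) (by norm_num))
    (lnHas_term (289 / 49) 3 (8 / 3) (by norm_num))))))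
  have hfun : (fun s : ℝ => s * psi s ^ 2) = fun s =>
      4 / 49 * (s ^ 1 * Real.exp (-(1 / 2 * s))) +
      (16 / 49 * (s ^ 1 * Real.exp (-(19 / 12 * s))) +
      (68 / 49 * (s ^ 2 * Real.exp (-(19 / 12 * s))) +
      (16 / 49 * (s ^ 1 * Real.exp (-(8 / 3 * s))) +
      (136 / 49 * (s ^ 2 * Real.exp (-(8 / 3 * s))) +
      289 / 49 * (s ^ 3 * Real.exp (-(8 / 3 * s))))))) := by
    funext s; exact ln_expand s
  rw [← hfun] at h
  refine ⟨h.1, h.2.trans ?_⟩
  norm_num [Nat.factorial]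

end H821R4.LT
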