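import Pool.Agent.H821R4.LT.Stubs

/-! # Task LW: Cauchy-Schwarz for the low part -/

set_option autoImplicit false
open MeasureTheory Real Complex FourierTransform Set

namespace H821R4.LT

namespace LWh

theorem P_nonneg (ξ : ℝ) : 0 ≤ P ξ := by
  unfold P
  positivity

theorem P_cont : Continuous P := by
  unfold P
  fun_prop

theorem gg_cont : ContinuousOn gg (Ici 0) := by
  unfold gg
  apply ContinuousOn.mul (by fun_prop)
  apply ContinuousOn.add
  · apply ContinuousOn.add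
    · apply ContinuousOn.div (by fun_prop) (by fun_prop)
      intro y hy
      have : (0 : ℝ) ≤ y := hy
      positivity
    · apply ContinuousOn.div (by fun_prop) (by fun_prop)
      intro y hy
      have : (0 : ℝ) ≤ y := hy
      positivity
  · apply ContinuousOn.div (by fun_prop) (by fun_prop)
    intro y hy
    have : (0 : ℝ) ≤ y := hy
    positivity

theorem gg_nonneg (y : ℝ) (hy : 0 ≤ y) : 0 ≤ gg y := by
  unfold gg
  positivity

theorem gg_le (y : ℝ) (hy : 0 ≤ y) : gg y ≤ 9 / 2 := by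
  unfold gg
  have h1 : y ^ 2 / (y + 1 / 4) ^ 2 ≤ 1 := by
    rw [div_le_one (by positivity)]
    nlinarith
  have h2 : y ^ 2 / (y + 4 / 3) ^ 2 ≤ 1 := by
    rw [div_le_one (by positivity)]
    nlinarith
  have h3 : y ^ 2 / (y + 4 / 3) ^ 3 ≤ 3 / 4 := by
    rw [div_le_iff₀ (by positivity)]
    nlinarith [pow_nonneg hy 2, pow_nonneg hy 3]
  have e : y ^ 2 * (2 / 7 / (y + 1 / 4) ^ 2 + 4 / 7 / (y + 4 / 3) ^ 2 + 34 / 7 / (y + 4 / 3) ^ 3) =
      2 / 7 * (y ^ 2 / (y + 1 / 4) ^ 2) + 4 / 7 * (y ^ 2 / (y + 4 / 3) ^ 2) +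
        34 / 7 * (y ^ 2 / (y + 4 / 3) ^ 3) := by ring
  rw [e]
  linarith

theorem abs_r_le (y : ℝ) (hy : 0 ≤ y) : |1 - gg y| ≤ 9 / 2 := by
  have h1 := gg_nonneg y hy
  have h2 := gg_le y hy
  rw [abs_le]
  constructor <;> linarith

theorem r_cont (κ : ℝ) (hκ : 0 < κ) : Continuous fun ξ : ℝ => 1 - gg (P ξ / κ) := by
  have h : Continuous fun ξ : ℝ => gg (P ξ / κ) := by
    rw [← continuousOn_univ]
    apply gg_cont.comp (P_cont.div_const κ).continuousOn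
    intro ξ _
    exact div_nonneg (P_nonneg ξ) hκ.le
  exact continuous_const.sub h

theorem cs (f g : ℝ → ℝ) (hf0 : ∀ x, 0 ≤ f x) (hg0 : ∀ x, 0 ≤ g x) (hfm : AEStronglyMeasurable f)
    (hgm : AEStronglyMeasurable g) (hf : Integrable fun x => f x ^ 2)
    (hg : Integrable fun x => g x ^ 2) :
    (∫ x, f x * g x) ^ 2 ≤ (∫ x, f x ^ 2) * ∫ x, g x ^ 2 := by
  have h1 : MemLp f (ENNReal.ofReal 2) := by
    rw [ENNReal.ofReal_ofNat]
    exact (memLp_two_iff_integrable_sq hfm).2 hf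
  have h2 : MemLp g (ENNReal.ofReal 2) := by
    rw [ENNReal.ofReal_ofNat]
    exact (memLp_two_iff_integrable_sq hgm).2 hg
  have h3 := integral_mul_le_Lp_mul_Lq_of_nonneg (μ := (volume : Measure ℝ))
    Real.HolderConjugate.two_two (Filter.Eventually.of_forall hf0)
    (Filter.Eventually.of_forall hg0) h1 h2
  have hA : 0 ≤ ∫ x, f x ^ 2 := integral_nonneg fun x => by positivity
  have hB : 0 ≤ ∫ x, g x ^ 2 := integral_nonneg fun x => by positivity
  have h0 : 0 ≤ ∫ x, f x * g x := integral_nonneg fun x => mul_nonneg (hf0 x) (hg0 x)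
  simp only [Real.rpow_ofNat] at h3
  rw [← Real.sqrt_eq_rpow, ← Real.sqrt_eq_rpow] at h3
  calc (∫ x, f x * g x) ^ 2 ≤ (√(∫ x, f x ^ 2) * √(∫ x, g x ^ 2)) ^ 2 :=
        pow_le_pow_left₀ h0 h3 2
    _ = _ := by rw [mul_pow, Real.sq_sqrt hA, Real.sq_sqrt hB]

theorem int1 (κ : ℝ) (hκ : 0 < κ) :
    Integrable fun ξ : ℝ => (1 - gg (P ξ / κ)) ^ 2 / (P ξ ^ 2 + κ ^ 2) := by
  have h1 : Integrable fun ξ : ℝ => (81 / 4 / κ ^ 2) * (1 + (2 * Real.pi / κ * ξ) ^ 2)⁻¹ := by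
    apply Integrable.const_mul
    exact integrable_inv_one_add_sq.comp_mul_left' (div_pos (by positivity) hκ).ne'
  refine h1.mono' ?_ (Filter.Eventually.of_forall fun ξ => ?_)
  · apply Continuous.aestronglyMeasurable
    apply Continuous.div ((r_cont κ hκ).pow 2) ((P_cont.pow 2).add continuous_const)
    intro ξ
    exact (by positivity : (0 : ℝ) < P ξ ^ 2 + κ ^ 2).ne'
  · rw [Real.norm_eq_abs, abs_div, abs_of_nonneg (sq_nonneg _),
      abs_of_pos (by positivity : 0 < P ξ ^ 2 + κ ^ 2)]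
    have h2 := abs_r_le (P ξ / κ) (div_nonneg (P_nonneg ξ) hκ.le)
    have h3 : (1 - gg (P ξ / κ)) ^ 2 ≤ 81 / 4 := by
      rw [← sq_abs]
      calc |1 - gg (P ξ / κ)| ^ 2 ≤ (9 / 2) ^ 2 := pow_le_pow_left₀ (abs_nonneg _) h2 2
        _ = 81 / 4 := by norm_num
    have h4 : P ξ ^ 2 = (2 * Real.pi * ξ) ^ 2 := by
      unfold P
      rw [mul_pow, sq_abs, ← mul_pow]
    have h5 : P ξ ^ 2 + κ ^ 2 = κ ^ 2 * (1 + (2 * Real.pi / κ * ξ) ^ 2) := by
      rw [h4]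
      field_simp
      ring
    calc (1 - gg (P ξ / κ)) ^ 2 / (P ξ ^ 2 + κ ^ 2) ≤ 81 / 4 / (P ξ ^ 2 + κ ^ 2) := by gcongr
      _ = _ := by
        rw [h5]
        field_simp

theorem int2 (κ : ℝ) (hκ : 0 < κ) :
    ∫ ξ : ℝ, (1 - gg (P ξ / κ)) ^ 2 / (P ξ ^ 2 + κ ^ 2) =
      1 / (Real.pi * κ) * ∫ y in Ioi (0 : ℝ), (1 - gg y) ^ 2 / (1 + y ^ 2) := by
  have hpi := Real.pi_pos
  set H : ℝ → ℝ := fun y => (1 - gg y) ^ 2 / (1 + y ^ 2) with hH
  have e1 : (fun ξ : ℝ => (1 - gg (P ξ / κ)) ^ 2 / (P ξ ^ 2 + κ ^ 2)) =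
      fun ξ : ℝ => (fun y => 1 / κ ^ 2 * H (2 * Real.pi / κ * y)) |ξ| := by
    funext ξ
    simp only [hH]
    have h1 : P ξ / κ = 2 * Real.pi / κ * |ξ| := by
      unfold P
      ring
    have h2 : P ξ ^ 2 + κ ^ 2 = κ ^ 2 * (1 + (2 * Real.pi / κ * |ξ|) ^ 2) := by
      unfold P
      field_simp
      ring
    rw [h1, h2]
    field_simp
  rw [e1, integral_comp_abs (f := fun y => 1 / κ ^ 2 * H (2 * Real.pi / κ * y)), integral_const_mul,
    integral_comp_mul_left_Ioi H 0 (by positivity : 0 < 2 * Real.pi / κ), mul_zero, smul_eq_mul]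
  field_simp

end LWh

open LWh in
theorem lw : S_LJ → S_FA → S_LW := by
  intro hLJ hFA u hu hc x κ hκ
  obtain ⟨f1, f2, -, f4, f5, f6, f7⟩ := hFA u hu hc
  have hpi := Real.pi_pos
  set F := 𝓕 u with hF
  have hn : ∀ ξ : ℝ, ‖Complex.exp (2 * Real.pi * x * ξ * Complex.I) *
      (((1 - gg (P ξ / κ) : ℝ) : ℂ) * F ξ)‖ = |1 - gg (P ξ / κ)| * ‖F ξ‖ := by
    intro ξ
    rw [norm_mul, norm_mul, Complex.norm_real, Real.norm_eq_abs]
    have : ‖Complex.exp (2 * Real.pi * x * ξ * Complex.I)‖ = 1 := by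
      have := Complex.norm_exp_ofReal_mul_I (2 * Real.pi * x * ξ)
      push_cast at this
      exact this
    rw [this, one_mul]
  constructor
  · refine (f1.norm.const_mul (9 / 2)).mono' ?_ (Filter.Eventually.of_forall fun ξ => ?_)
    · apply Continuous.aestronglyMeasurable
      apply Continuous.mul
      · fun_prop
      · exact (Complex.continuous_ofReal.comp (r_cont κ hκ)).mul f2
    · rw [hn]
      exact mul_le_mul_of_nonneg_right (abs_r_le _ (div_nonneg (P_nonneg ξ) hκ.le))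
        (norm_nonneg _)
  · have hs : ∀ ξ : ℝ, 0 < P ξ ^ 2 + κ ^ 2 := fun ξ => by positivity
    have hsc : Continuous fun ξ : ℝ => √(P ξ ^ 2 + κ ^ 2) :=
      ((P_cont.pow 2).add continuous_const).sqrt
    have hff : ∀ ξ : ℝ, (|1 - gg (P ξ / κ)| / √(P ξ ^ 2 + κ ^ 2)) ^ 2 =
        (1 - gg (P ξ / κ)) ^ 2 / (P ξ ^ 2 + κ ^ 2) := by
      intro ξ
      rw [div_pow, sq_abs, Real.sq_sqrt (hs ξ).le]
    have hgf : ∀ ξ : ℝ, (√(P ξ ^ 2 + κ ^ 2) * ‖F ξ‖) ^ 2 =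
        P ξ ^ 2 * ‖F ξ‖ ^ 2 + κ ^ 2 * ‖F ξ‖ ^ 2 := by
      intro ξ
      rw [mul_pow, Real.sq_sqrt (hs ξ).le]
      ring
    have hCS := cs (fun ξ => |1 - gg (P ξ / κ)| / √(P ξ ^ 2 + κ ^ 2))
      (fun ξ => √(P ξ ^ 2 + κ ^ 2) * ‖F ξ‖) (fun ξ => by positivity) (fun ξ => by positivity)
      (by
        apply Continuous.aestronglyMeasurable
        apply Continuous.div (r_cont κ hκ).abs hsc
        intro ξ
        have := Real.sqrt_pos.2 (hs ξ)
        exact this.ne')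
      (hsc.mul f2.norm).aestronglyMeasurable
      (by
        simp_rw [hff]
        exact int1 κ hκ)
      (by
        simp_rw [hgf]
        exact f6.add (f4.const_mul _))
    simp_rw [hff, hgf] at hCS
    rw [integral_add f6 (f4.const_mul _), integral_const_mul, f5, f7, int2 κ hκ] at hCS
    have h1 : ‖∫ ξ : ℝ, Complex.exp (2 * Real.pi * x * ξ * Complex.I) *
        (((1 - gg (P ξ / κ) : ℝ) : ℂ) * F ξ)‖ ≤
        ∫ ξ : ℝ, |1 - gg (P ξ / κ)| / √(P ξ ^ 2 + κ ^ 2) * (√(P ξ ^ 2 + κ ^ 2) * ‖F ξ‖) := by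
      refine (norm_integral_le_integral_norm _).trans (le_of_eq ?_)
      apply integral_congr_ae
      refine Filter.Eventually.of_forall fun ξ => ?_
      simp only
      rw [hn]
      have := Real.sqrt_pos.2 (hs ξ)
      field_simp
    have hK : 0 ≤ (∫ y : ℝ, ‖deriv u y‖ ^ 2) + κ ^ 2 * ∫ y : ℝ, ‖u y‖ ^ 2 := by
      apply add_nonneg (integral_nonneg fun _ => by positivity)
      exact mul_nonneg (by positivity) (integral_nonneg fun _ => by positivity)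
    calc _ ≤ (∫ ξ : ℝ, |1 - gg (P ξ / κ)| / √(P ξ ^ 2 + κ ^ 2) *
          (√(P ξ ^ 2 + κ ^ 2) * ‖F ξ‖)) ^ 2 := pow_le_pow_left₀ (norm_nonneg _) h1 2
      _ ≤ _ := hCS
      _ ≤ 4259 / 10000 / (Real.pi * κ) *
          ((∫ y : ℝ, ‖deriv u y‖ ^ 2) + κ ^ 2 * ∫ y : ℝ, ‖u y‖ ^ 2) := by
        apply mul_le_mul_of_nonneg_right _ hK
        rw [div_mul_eq_mul_div, one_mul]
        exact div_le_div_of_nonneg_right hLJ.2 (by positivity)

end H821R4.LT
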