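import Pool.Agent.H821R4.LT.Stubs

set_option autoImplicit false
open MeasureTheory Real Complex FourierTransform Set

namespace H821R4.LT

section
variable {N : ℕ} (u : Fin N → ℝ → ℂ)

noncomputable def vv (x : ℝ) : ℝ → ℂ := fun y => ∑ n, (starRingEnd ℂ) (u n x) * u n y

noncomputable def rr (x : ℝ) : ℝ := ∑ n, ‖u n x‖ ^ 2

variable {u}

theorem cont_u (hu : ∀ n, ContDiff ℝ 1 (u n)) (n : Fin N) : Continuous (u n) := (hu n).continuous

theorem cont_du (hu : ∀ n, ContDiff ℝ 1 (u n)) (n : Fin N) : Continuous (deriv (u n)) :=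
  (hu n).continuous_deriv le_rfl

theorem vv_contDiff (hu : ∀ n, ContDiff ℝ 1 (u n)) (x : ℝ) : ContDiff ℝ 1 (vv u x) := by
  unfold vv
  exact ContDiff.sum fun n _ => contDiff_const.mul (hu n)

theorem sum_compact {M : ℕ} (f : Fin M → ℝ → ℂ) (hf : ∀ n, HasCompactSupport (f n)) :
    HasCompactSupport (fun y => ∑ n, f n y) := by
  induction M with
  | zero =>
    simp only [Finset.univ_eq_empty, Finset.sum_empty]
    exact HasCompactSupport.zero
  | succ M ih =>
    simp only [Fin.sum_univ_succ]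
    exact (hf 0).add (ih (fun n => f n.succ) fun n => hf _)

theorem vv_compact (hc : ∀ n, HasCompactSupport (u n)) (x : ℝ) : HasCompactSupport (vv u x) := by
  unfold vv
  apply sum_compact
  intro n
  exact (hc n).mul_left

theorem vv_diag (x : ℝ) : vv u x x = ((rr u x : ℝ) : ℂ) := by
  unfold vv rr
  push_cast
  refine Finset.sum_congr rfl fun n _ => ?_
  rw [mul_comm, Complex.mul_conj, Complex.normSq_eq_norm_sq]
  push_cast
  rfl

theorem rr_nonneg (x : ℝ) : 0 ≤ rr u x := Finset.sum_nonneg fun n _ => by positivity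

theorem deriv_vv (hu : ∀ n, ContDiff ℝ 1 (u n)) (x y : ℝ) :
    deriv (vv u x) y = ∑ n, (starRingEnd ℂ) (u n x) * deriv (u n) y := by
  unfold vv
  rw [deriv_fun_sum]
  · refine Finset.sum_congr rfl fun n _ => ?_
    rw [deriv_const_mul]
    exact ((hu n).differentiable (by norm_num)).differentiableAt
  · intro n _
    exact (((hu n).differentiable (by norm_num)).differentiableAt).const_mul _

/-- quadratic expansion -/
theorem norm_sq_sum (c w : Fin N → ℂ) :
    ((‖∑ n, (starRingEnd ℂ) (c n) * w n‖ ^ 2 : ℝ) : ℂ) =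
      ∑ n, ∑ m, (starRingEnd ℂ) (c n) * c m * ((starRingEnd ℂ) (w m) * w n) := by
  rw [← Complex.normSq_eq_norm_sq, ← Complex.mul_conj, map_sum, Finset.sum_mul_sum]
  refine Finset.sum_congr rfl fun n _ => Finset.sum_congr rfl fun m _ => ?_
  simp only [map_mul, Complex.conj_conj]
  ring

theorem int_mul {f g : ℝ → ℂ} (hf : Continuous f) (hg : Continuous g) (hc : HasCompactSupport f) :
    Integrable (fun y => (starRingEnd ℂ) (f y) * g y) := by
  apply Continuous.integrable_of_hasCompactSupport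
  · exact (Complex.continuous_conj.comp hf).mul hg
  · apply HasCompactSupport.mul_right
    exact hc.comp_left (g := starRingEnd ℂ) (map_zero _)

theorem int_quad (w : Fin N → ℝ → ℂ) (c : Fin N → ℂ) (hw : ∀ n, Continuous (w n))
    (hwc : ∀ n, HasCompactSupport (w n)) :
    ((∫ y, ‖∑ n, (starRingEnd ℂ) (c n) * w n y‖ ^ 2 : ℝ) : ℂ) =
      ∑ n, ∑ m, (starRingEnd ℂ) (c n) * c m * ∫ y, (starRingEnd ℂ) (w m y) * w n y := by
  rw [← integral_complex_ofReal]
  have h1 : ∀ y, ((‖∑ n, (starRingEnd ℂ) (c n) * w n y‖ ^ 2 : ℝ) : ℂ) =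
      ∑ n, ∑ m, (starRingEnd ℂ) (c n) * c m * ((starRingEnd ℂ) (w m y) * w n y) := fun y =>
    norm_sq_sum c fun n => w n y
  simp_rw [h1]
  have hint : ∀ n m, Integrable (fun y => (starRingEnd ℂ) (c n) * c m *
      ((starRingEnd ℂ) (w m y) * w n y)) := fun n m => (int_mul (hw m) (hw n) (hwc m)).const_mul _
  rw [integral_finsetSum _ fun n _ => integrable_finsetSum _ fun m _ => hint n m]
  refine Finset.sum_congr rfl fun n _ => ?_
  rw [integral_finsetSum _ fun m _ => hint n m]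
  refine Finset.sum_congr rfl fun m _ => ?_
  rw [integral_const_mul]

theorem int_vv (hu : ∀ n, ContDiff ℝ 1 (u n)) (hc : ∀ n, HasCompactSupport (u n))
    (ho : ∀ n m, ∫ x : ℝ, (starRingEnd ℂ) (u n x) * u m x = if n = m then 1 else 0) (x : ℝ) :
    ∫ y, ‖vv u x y‖ ^ 2 = rr u x := by
  have h := int_quad u (fun n => u n x) (cont_u hu) hc
  simp_rw [ho] at h
  have h2 : ((∫ y, ‖vv u x y‖ ^ 2 : ℝ) : ℂ) = ((rr u x : ℝ) : ℂ) := by
    rw [show (∫ y, ‖vv u x y‖ ^ 2) = ∫ y, ‖∑ n, (starRingEnd ℂ) (u n x) * u n y‖ ^ 2 from rfl, h]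
    unfold rr
    push_cast
    refine Finset.sum_congr rfl fun n _ => ?_
    simp only [mul_ite, mul_one, mul_zero, Finset.sum_ite_eq', Finset.mem_univ, if_true]
    rw [mul_comm, Complex.mul_conj, Complex.normSq_eq_norm_sq]
    push_cast
    rfl
  exact_mod_cast h2

theorem int_dvv (hu : ∀ n, ContDiff ℝ 1 (u n)) (hc : ∀ n, HasCompactSupport (u n)) (x : ℝ) :
    ((∫ y, ‖deriv (vv u x) y‖ ^ 2 : ℝ) : ℂ) = ∑ n, ∑ m, (starRingEnd ℂ) (u n x) * u m x *
      ∫ y, (starRingEnd ℂ) (deriv (u m) y) * deriv (u n) y := by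
  simp_rw [deriv_vv hu]
  exact int_quad (fun n => deriv (u n)) (fun n => u n x) (cont_du hu) fun n => (hc n).deriv

theorem int_int_dvv (hu : ∀ n, ContDiff ℝ 1 (u n)) (hc : ∀ n, HasCompactSupport (u n))
    (ho : ∀ n m, ∫ x : ℝ, (starRingEnd ℂ) (u n x) * u m x = if n = m then 1 else 0) :
    Integrable (fun x => ∫ y, ‖deriv (vv u x) y‖ ^ 2) ∧
    ∫ x, ∫ y, ‖deriv (vv u x) y‖ ^ 2 = ∑ n, ∫ y, ‖deriv (u n) y‖ ^ 2 := by
  have hint : ∀ n m, Integrable (fun x => (starRingEnd ℂ) (u n x) * u m x *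
      ∫ y, (starRingEnd ℂ) (deriv (u m) y) * deriv (u n) y) := fun n m =>
    (int_mul (cont_u hu n) (cont_u hu m) (hc n)).mul_const _
  have hI : Integrable (fun x => ((∫ y, ‖deriv (vv u x) y‖ ^ 2 : ℝ) : ℂ)) := by
    simp_rw [int_dvv hu hc]
    exact integrable_finsetSum _ fun n _ => integrable_finsetSum _ fun m _ => hint n m
  have hIr : Integrable (fun x => ∫ y, ‖deriv (vv u x) y‖ ^ 2) := by
    have := hI.re
    simpa using this
  refine ⟨hIr, ?_⟩
  have h2 : ((∫ x, ∫ y, ‖deriv (vv u x) y‖ ^ 2 : ℝ) : ℂ) =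
      ((∑ n, ∫ y, ‖deriv (u n) y‖ ^ 2 : ℝ) : ℂ) := by
    rw [← integral_complex_ofReal]
    simp_rw [int_dvv hu hc]
    rw [integral_finsetSum _ fun n _ => integrable_finsetSum _ fun m _ => hint n m]
    push_cast
    refine Finset.sum_congr rfl fun n _ => ?_
    rw [integral_finsetSum _ fun m _ => hint n m]
    have : ∀ m, ∫ x, (starRingEnd ℂ) (u n x) * u m x *
        (∫ y, (starRingEnd ℂ) (deriv (u m) y) * deriv (u n) y) =
        (if n = m then 1 else 0) * ∫ y, (starRingEnd ℂ) (deriv (u m) y) * deriv (u n) y := by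
      intro m
      rw [integral_mul_const, ho]
    simp_rw [this]
    simp only [ite_mul, one_mul, zero_mul, Finset.sum_ite_eq, Finset.mem_univ, if_true]
    rw [← integral_complex_ofReal]
    refine integral_congr_ae (Filter.Eventually.of_forall fun y => ?_)
    simp only
    rw [mul_comm, Complex.mul_conj, Complex.normSq_eq_norm_sq]
  exact_mod_cast h2

/-- measurability of the density -/
theorem meas_tD (hFC : S_FC) {w : ℝ → ℂ} (hw : ContDiff ℝ 1 w) (hc : HasCompactSupport w) :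
    Measurable (fun q : ℝ × ℝ => ENNReal.ofReal (4 * q.1 * ‖D w q.1 q.2‖ ^ 2)) := by
  have h := (hFC w hw hc).1
  exact (((measurable_const.mul measurable_fst).mul (h.norm.pow_const 2))).ennreal_ofReal

theorem meas_B (hFC : S_FC) {w : ℝ → ℂ} (hw : ContDiff ℝ 1 w) (hc : HasCompactSupport w) :
    Measurable (B w) := by
  unfold B
  exact (meas_tD hFC hw hc).lintegral_prod_left'

/-- the `B` density of `v_x` -/
theorem B_vv (hFB : S_FB) (hFC : S_FC) (hu : ∀ n, ContDiff ℝ 1 (u n))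
    (hc : ∀ n, HasCompactSupport (u n))
    (x : ℝ) : B (vv u x) x ≤ ENNReal.ofReal (rr u x) * ∑ n, B (u n) x := by
  unfold B
  have h1 : ∀ t ∈ Ioi (0 : ℝ), ENNReal.ofReal (4 * t * ‖D (vv u x) t x‖ ^ 2) ≤
      ENNReal.ofReal (rr u x) * ∑ n, ENNReal.ofReal (4 * t * ‖D (u n) t x‖ ^ 2) := by
    intro t ht
    have ht' : (0 : ℝ) < t := ht
    have e1 : D (vv u x) t x = ∑ n, (starRingEnd ℂ) (u n x) * D (u n) t x :=
      hFB N u (fun n => (starRingEnd ℂ) (u n x)) hu hc t x ht'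
    rw [e1, ← ENNReal.ofReal_sum_of_nonneg (fun n _ => by positivity),
      ← ENNReal.ofReal_mul (rr_nonneg x)]
    apply ENNReal.ofReal_le_ofReal
    have h2 : ‖∑ n, (starRingEnd ℂ) (u n x) * D (u n) t x‖ ≤ ∑ n, ‖u n x‖ * ‖D (u n) t x‖ := by
      refine (norm_sum_le _ _).trans (Finset.sum_le_sum fun n _ => ?_)
      rw [norm_mul, RCLike.norm_conj]
    have h3 : (∑ n, ‖u n x‖ * ‖D (u n) t x‖) ^ 2 ≤ (∑ n, ‖u n x‖ ^ 2) * ∑ n, ‖D (u n) t x‖ ^ 2 :=
      Finset.sum_mul_sq_le_sq_mul_sq _ _ _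
    have h4 : ‖∑ n, (starRingEnd ℂ) (u n x) * D (u n) t x‖ ^ 2 ≤
        rr u x * ∑ n, ‖D (u n) t x‖ ^ 2 := (pow_le_pow_left₀ (norm_nonneg _) h2 2).trans h3
    calc 4 * t * ‖∑ n, (starRingEnd ℂ) (u n x) * D (u n) t x‖ ^ 2
        ≤ 4 * t * (rr u x * ∑ n, ‖D (u n) t x‖ ^ 2) := by gcongr
      _ = rr u x * ∑ n, 4 * t * ‖D (u n) t x‖ ^ 2 := by
        rw [← Finset.mul_sum]; ring
  refine (setLIntegral_mono' measurableSet_Ioi h1).trans ?_
  have hm : ∀ n, Measurable (fun t : ℝ => ENNReal.ofReal (4 * t * ‖D (u n) t x‖ ^ 2)) := fun n =>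
    (meas_tD hFC (hu n) (hc n)).comp (measurable_id.prodMk measurable_const)
  rw [lintegral_const_mul _ (Finset.measurable_sum _ fun n _ => hm n),
    lintegral_finset_sum _ fun n _ => hm n]

end

theorem main : S_ONE → S_FB → S_FC → S_MAIN := by
  intro hONE hFB hFC N u hu hc ho
  have hBfin : ∀ n, ∀ᵐ x, B (u n) x < ⊤ := fun n =>
    ae_lt_top (meas_B hFC (hu n) (hc n))
      (ne_top_of_le_ne_top ENNReal.ofReal_ne_top (hFC (u n) (hu n) (hc n)).2)
  have hBfin' : ∀ᵐ x, ∀ n, B (u n) x < ⊤ := ae_all_iff.2 hBfin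
  have hBint : ∀ n, Integrable (fun x => (B (u n) x).toReal) := fun n =>
    integrable_toReal_of_lintegral_ne_top (meas_B hFC (hu n) (hc n)).aemeasurable
      (ne_top_of_le_ne_top ENNReal.ofReal_ne_top (hFC (u n) (hu n) (hc n)).2)
  have hBle : ∀ n, ∫ x, (B (u n) x).toReal ≤ ∫ y, ‖deriv (u n) y‖ ^ 2 := by
    intro n
    rw [integral_toReal (meas_B hFC (hu n) (hc n)).aemeasurable (hBfin n)]
    exact ENNReal.toReal_le_of_le_ofReal (integral_nonneg fun y => by positivity)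
      (hFC (u n) (hu n) (hc n)).2
  obtain ⟨hI1, hI2⟩ := int_int_dvv hu hc ho
  have hpt : ∀ᵐ x, 8 / 5 * rr u x ^ 3 ≤ 6 / 25 * (∫ y, ‖deriv (vv u x) y‖ ^ 2) +
      19 / 25 * ∑ n, (B (u n) x).toReal := by
    filter_upwards [hBfin'] with x hx
    rcases (rr_nonneg (u := u) x).eq_or_lt with h0 | h0
    · rw [← h0]
      have h1 : 0 ≤ ∫ y, ‖deriv (vv u x) y‖ ^ 2 := integral_nonneg fun y => by positivity
      have h2 : 0 ≤ ∑ n, (B (u n) x).toReal := Finset.sum_nonneg fun n _ => ENNReal.toReal_nonneg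
      simp only [ne_eq, OfNat.ofNat_ne_zero, not_false_eq_true, zero_pow, mul_zero]
      positivity
    · have hB := B_vv hFB hFC hu hc x
      have hsum : (∑ n, B (u n) x) ≠ ⊤ := ENNReal.sum_ne_top.2 fun n _ => (hx n).ne
      have hfin : ENNReal.ofReal (rr u x) * ∑ n, B (u n) x ≠ ⊤ :=
        ENNReal.mul_ne_top ENNReal.ofReal_ne_top hsum
      have hBx : B (vv u x) x ≠ ⊤ := ne_top_of_le_ne_top hfin hB
      have hn : ‖vv u x x‖ = rr u x := by
        rw [vv_diag, Complex.norm_real, Real.norm_of_nonneg (rr_nonneg x)]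
      have h1 := hONE (vv u x) (vv_contDiff hu x) (vv_compact hc x) x (rr u x) h0 hn
        (int_vv hu hc ho x) hBx
      have h2 : (B (vv u x) x).toReal / rr u x ≤ ∑ n, (B (u n) x).toReal := by
        rw [div_le_iff₀ h0]
        have h3 := ENNReal.toReal_mono hfin hB
        rw [ENNReal.toReal_mul, ENNReal.toReal_ofReal h0.le,
          ENNReal.toReal_sum fun n _ => (hx n).ne] at h3
        linarith
      linarith
  have hrr : Continuous (rr u) := by
    unfold rr
    exact continuous_finset_sum _ fun n _ => ((cont_u hu n).norm.pow 2)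
  have hrc : HasCompactSupport (rr u) := by
    have h1 : rr u = fun x => ‖vv u x x‖ := by
      funext x
      rw [vv_diag, Complex.norm_real, Real.norm_of_nonneg (rr_nonneg x)]
    rw [h1]
    apply HasCompactSupport.norm
    unfold vv
    apply sum_compact
    intro n
    exact (hc n).mul_left
  have hL : Integrable (fun x => 8 / 5 * rr u x ^ 3) := by
    apply Integrable.const_mul
    apply Continuous.integrable_of_hasCompactSupport (hrr.pow 3)
    exact hrc.comp_left (g := fun z : ℝ => z ^ 3) (by norm_num)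
  have hR : Integrable (fun x => 6 / 25 * (∫ y, ‖deriv (vv u x) y‖ ^ 2) +
      19 / 25 * ∑ n, (B (u n) x).toReal) :=
    (hI1.const_mul _).add ((integrable_finsetSum _ fun n _ => hBint n).const_mul _)
  have hmain := integral_mono_ae hL hR hpt
  rw [integral_const_mul, integral_add (hI1.const_mul _)
    ((integrable_finsetSum _ fun n _ => hBint n).const_mul _), integral_const_mul,
    integral_const_mul, integral_finsetSum _ fun n _ => hBint n, hI2] at hmain
  have hs : ∑ n, ∫ x, (B (u n) x).toReal ≤ ∑ n, ∫ y, ‖deriv (u n) y‖ ^ 2 :=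
    Finset.sum_le_sum fun n _ => hBle n
  have : 8 / 5 * ∫ x : ℝ, (∑ n, ‖u n x‖ ^ 2) ^ 3 = 8 / 5 * ∫ x, rr u x ^ 3 := rfl
  rw [this]
  linarith

end H821R4.LT
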